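import Pool.Agent.QS.Defs

/-! # The degree valuation of the algebraic closure -/

namespace Pool.Agent.QS

open MvPolynomial

variable {K : Type} [Field K] {k : ℕ}

open Classical in
/-- the total degree as a valuation of the polynomial ring -/
noncomputable def degVal (K : Type) [Field K] (k : ℕ) :
    Valuation (A K k) (WithZero (Multiplicative ℤ)) where
  toFun f := if f = 0 then 0 else WithZero.exp (f.totalDegree : ℤ)
  map_zero' := by simp
  map_one' := by simp
  map_mul' f g := by
    by_cases hf : f = 0
    · simp [hf]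
    by_cases hg : g = 0
    · simp [hg]
    rw [if_neg (mul_ne_zero hf hg), if_neg hf, if_neg hg, totalDegree_mul_of_isDomain hf hg,
      Nat.cast_add, WithZero.exp_add]
  map_add_le_max' f g := by
    by_cases hf : f = 0
    · simp [hf]
    by_cases hg : g = 0
    · simp [hg]
    by_cases hfg : f + g = 0
    · simp [hfg]
    rw [if_neg hfg, if_neg hf, if_neg hg, le_max_iff, WithZero.exp_le_exp, WithZero.exp_le_exp,
      Nat.cast_le, Nat.cast_le, ← le_max_iff]
    exact totalDegree_add f g

theorem degVal_apply {f : A K k} (hf : f ≠ 0) :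
    degVal K k f = WithZero.exp (f.totalDegree : ℤ) := if_neg hf

theorem degVal_le : nonZeroDivisors (A K k) ≤ (degVal K k).supp.primeCompl := by
  intro f hf h
  have h0 : f ≠ 0 := nonZeroDivisors.ne_zero hf
  have h1 : degVal K k f = 0 := h
  rw [degVal_apply h0] at h1
  exact WithZero.exp_ne_zero h1

/-- the total degree as a valuation of the field of fractions -/
noncomputable def degValQ (K : Type) [Field K] (k : ℕ) :
    Valuation (Q K k) (WithZero (Multiplicative ℤ)) :=
  (degVal K k).extendToLocalization degVal_le (Q K k)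

theorem degValQ_apply {f : A K k} (hf : f ≠ 0) :
    degValQ K k (algebraMap (A K k) (Q K k) f) = WithZero.exp (f.totalDegree : ℤ) := by
  unfold degValQ
  rw [Valuation.extendToLocalization_apply_map_apply, degVal_apply hf]

/-- a valuation subring of a field extends to an extension field -/
theorem exists_extension {E L Γ : Type} [Field E] [Field L] [Algebra E L]
    [LinearOrderedCommGroupWithZero Γ] (w : Valuation E Γ) :
    ∃ B : ValuationSubring L, (∀ x : E, w x ≤ 1 → B.valuation (algebraMap E L x) ≤ 1) ∧
      ∀ x : E, w x < 1 → B.valuation (algebraMap E L x) < 1 := by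
  let f : w.valuationSubring →+* L := (algebraMap E L).comp w.valuationSubring.subtype
  have hf : Function.Injective f := (algebraMap E L).injective.comp Subtype.val_injective
  obtain ⟨B, h1, h2⟩ := (LocalSubring.range f).exists_le_valuationSubring
  have hmem : ∀ x : w.valuationSubring, f x ∈ (LocalSubring.range f).toSubring := fun x => ⟨x, rfl⟩
  refine ⟨B, fun x hx => ?_, fun x hx => ?_⟩
  · rw [ValuationSubring.valuation_le_one_iff]
    exact h1 (hmem ⟨x, hx⟩)
  · have hxO : x ∈ w.valuationSubring := hx.le
    have hB : f ⟨x, hxO⟩ ∈ B := h1 (hmem ⟨x, hxO⟩)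
    rw [show algebraMap E L x = ((⟨f ⟨x, hxO⟩, hB⟩ : B) : L) from rfl,
      ← ValuationSubring.valuation_lt_one_iff, IsLocalRing.mem_maximalIdeal]
    intro hu
    have h3 : IsUnit (⟨f ⟨x, hxO⟩, hmem ⟨x, hxO⟩⟩ : (LocalSubring.range f).toSubring) :=
      h2.map_nonunit _ hu
    obtain ⟨y, hy⟩ := h3.exists_right_inv
    obtain ⟨t, ht⟩ : ∃ t : w.valuationSubring, f t = y := y.2
    have h4 : f (⟨x, hxO⟩ * t) = 1 := by
      rw [map_mul, ht]
      exact congrArg Subtype.val hy
    have h5 : (⟨x, hxO⟩ : w.valuationSubring) * t = 1 := hf (h4.trans (map_one f).symm)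
    have h6 : x * (t : E) = 1 := congrArg Subtype.val h5
    have h7 : w x * w (t : E) = 1 := by rw [← map_mul, h6, map_one]
    have h8 : w (t : E) ≤ 1 := t.2
    have h9 : w x * w (t : E) < 1 := by
      calc w x * w (t : E) ≤ w x * 1 := by gcongr
        _ = w x := mul_one _
        _ < 1 := hx
    exact absurd h7 h9.ne

/-- the total degree is a valuation of `K[X]`, extended to the field of fractions
(`Valuation.extendToLocalization`) and then to the algebraic closure
(`LocalSubring.exists_le_valuationSubring`) -/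
theorem exists_val_inf (j0 : Fin k) :
    ∃ (Γ : Type) (_ : LinearOrderedCommGroupWithZero Γ) (v : Valuation (Om K k) Γ),
      1 < v (gx K k j0) ∧ ∀ f : A K k, f ≠ 0 →
        v (algebraMap (A K k) (Om K k) f) = v (gx K k j0) ^ f.totalDegree := by
  obtain ⟨B, h1, h2⟩ := exists_extension (L := Om K k) (degValQ K k)
  have hX : (X j0 : A K k) ≠ 0 := X_ne_zero j0
  have hX1 : degValQ K k (algebraMap (A K k) (Q K k) (X j0)) = WithZero.exp 1 := by
    rw [degValQ_apply hX, totalDegree_X, Nat.cast_one]
  have hXQ : algebraMap (A K k) (Q K k) (X j0) ≠ 0 :=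
    (map_ne_zero_iff _ (IsFractionRing.injective (A K k) (Q K k))).2 hX
  have hgx : gx K k j0 = algebraMap (Q K k) (Om K k) (algebraMap (A K k) (Q K k) (X j0)) := by
    unfold gx
    rw [IsScalarTower.algebraMap_apply (A K k) (Q K k) (Om K k)]
  have hgx0 : gx K k j0 ≠ 0 := by
    rw [hgx]
    exact (map_ne_zero _).2 hXQ
  refine ⟨_, inferInstance, B.valuation, ?_, fun f hf => ?_⟩
  · have h3 := h2 (algebraMap (A K k) (Q K k) (X j0))⁻¹ (by
      rw [map_inv₀, hX1, ← WithZero.exp_neg, ← WithZero.exp_zero, WithZero.exp_lt_exp]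
      norm_num)
    rw [map_inv₀, map_inv₀, ← hgx] at h3
    exact (inv_lt_one₀ (by
      rw [zero_lt_iff]
      exact (Valuation.ne_zero_iff _).2 hgx0)).1 h3
  · have hfQ : algebraMap (A K k) (Q K k) f ≠ 0 :=
      (map_ne_zero_iff _ (IsFractionRing.injective (A K k) (Q K k))).2 hf
    have h0 : degValQ K k (algebraMap (A K k) (Q K k) f /
        algebraMap (A K k) (Q K k) (X j0) ^ f.totalDegree) = 1 := by
      rw [map_div₀, map_pow, hX1, degValQ_apply hf, ← WithZero.exp_nsmul, nsmul_eq_mul, mul_one]
      exact div_self WithZero.exp_ne_zero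
    have h3 := h1 _ h0.le
    have h4 := h1 (algebraMap (A K k) (Q K k) f /
        algebraMap (A K k) (Q K k) (X j0) ^ f.totalDegree)⁻¹ (by rw [map_inv₀, h0, inv_one])
    rw [map_inv₀, map_inv₀] at h4
    have h5 : B.valuation (algebraMap (Q K k) (Om K k) (algebraMap (A K k) (Q K k) f /
        algebraMap (A K k) (Q K k) (X j0) ^ f.totalDegree)) = 1 := by
      refine le_antisymm h3 ?_
      rw [inv_le_one₀] at h4
      · exact h4
      · rw [zero_lt_iff]
        exact (Valuation.ne_zero_iff _).2 ((map_ne_zero _).2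
          (div_ne_zero hfQ (pow_ne_zero _ hXQ)))
    rw [map_div₀, map_pow, ← hgx, ← IsScalarTower.algebraMap_apply (A K k) (Q K k) (Om K k),
      map_div₀, map_pow, div_eq_one_iff_eq] at h5
    · exact h5
    · exact pow_ne_zero _ ((Valuation.ne_zero_iff _).2 hgx0)

end Pool.Agent.QS
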