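import Pool.Agent.QS.Defs

/-! # Valuations of the algebraic closure over a prime of `K[X]` -/

namespace Pool.Agent.QS

open MvPolynomial

variable {K : Type} [Field K] {k : ℕ}

/-- localisation at the prime ideal `(p)`, dominated by a valuation subring
(`LocalSubring.exists_le_valuationSubring`, `LocalSubring.ofPrime`) -/
theorem exists_val_prime (p : A K k) (hp : Prime p) :
    ∃ (Γ : Type) (_ : LinearOrderedCommGroupWithZero Γ) (v : Valuation (Om K k) Γ),
      (∀ f : A K k, v (algebraMap (A K k) (Om K k) f) ≤ 1) ∧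
      ∀ f : A K k, v (algebraMap (A K k) (Om K k) f) < 1 ↔ p ∣ f := by
  classical
  have hφ : Function.Injective (algebraMap (A K k) (Om K k)) := by
    rw [IsScalarTower.algebraMap_eq (A K k) (Q K k) (Om K k)]
    exact (algebraMap (Q K k) (Om K k)).injective.comp (IsFractionRing.injective _ _)
  let R : Subring (Om K k) := (algebraMap (A K k) (Om K k)).range
  let e : A K k ≃+* R := RingEquiv.ofBijective (algebraMap (A K k) (Om K k)).rangeRestrict
    ⟨fun a b hab => hφ (congrArg Subtype.val hab), RingHom.rangeRestrict_surjective _⟩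
  have hpp : (Ideal.span {p}).IsPrime := (Ideal.span_singleton_prime hp.ne_zero).2 hp
  let P : Ideal R := (Ideal.span {p}).comap (e.symm : R →+* A K k)
  have hP : P.IsPrime := Ideal.comap_isPrime _ _
  obtain ⟨B, hB⟩ := (LocalSubring.ofPrime R P).exists_le_valuationSubring
  obtain ⟨h1, h2⟩ := hB
  have hR : ∀ f : A K k, algebraMap (A K k) (Om K k) f ∈ R := fun f => ⟨f, rfl⟩
  have hL : ∀ f : A K k, algebraMap (A K k) (Om K k) f ∈ (LocalSubring.ofPrime R P).toSubring :=
    fun f => LocalSubring.le_ofPrime R P (hR f)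
  have hBm : ∀ f : A K k, algebraMap (A K k) (Om K k) f ∈ B := fun f => h1 (hL f)
  have key : ∀ f : A K k, IsUnit (⟨algebraMap (A K k) (Om K k) f, hBm f⟩ : B) ↔ ¬ p ∣ f := by
    intro f
    have h3 : IsUnit (Subring.inclusion h1 ⟨algebraMap (A K k) (Om K k) f, hL f⟩) ↔
        IsUnit (⟨algebraMap (A K k) (Om K k) f, hL f⟩ : (LocalSubring.ofPrime R P).toSubring) :=
      isUnit_map_iff (Subring.inclusion h1) _
    have h4 := IsLocalization.AtPrime.isUnit_to_map_iff (LocalSubring.ofPrime R P).toSubring P (e f)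
    have h5 : e f ∈ P.primeCompl ↔ ¬ p ∣ f := by
      rw [Ideal.mem_primeCompl_iff, Ideal.mem_comap]
      show ¬ (e.symm (e f) ∈ Ideal.span {p}) ↔ _
      rw [RingEquiv.symm_apply_apply, Ideal.mem_span_singleton]
    exact h3.trans (h4.trans h5)
  refine ⟨B.ValueGroup, inferInstance, B.valuation, fun f => (B.valuation_le_one_iff _).2 (hBm f),
    fun f => ?_⟩
  have h6 := B.valuation_lt_one_iff ⟨algebraMap (A K k) (Om K k) f, hBm f⟩
  rw [IsLocalRing.mem_maximalIdeal, mem_nonunits_iff, key, not_not] at h6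
  exact h6.symm

end Pool.Agent.QS
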