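import Pool.Agent.QS.Rec
import Pool.Agent.QT.Pts

/-! # Transfer to an arbitrary field -/

namespace Pool.Agent.QS

open MvPolynomial Pool.Agent.QT

namespace TransAux

theorem Bd_mono {d : ℕ} (hd : 0 < d) : Monotone (fun r => Bd r d) := by
  intro a b hab
  exact Nat.mul_le_mul (by omega) (Nat.pow_le_pow_right hd (by omega))

theorem Bd_one {d : ℕ} (hd : 0 < d) (r : ℕ) : 1 ≤ Bd r d :=
  Nat.mul_pos (by omega) (pow_pos hd _)

theorem Ex_zero (K : Type) [Field K] (k : ℕ) {d : ℕ} (hd : 0 < d) : Ex K k d 0 := by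
  refine ⟨X 0, X_ne_zero 0, ?_, ?_⟩
  · rw [totalDegree_X]; exact hd
  · rw [aeval_X]; rfl

/-- a relation makes `y` algebraic -/
theorem isAlgebraic_of_rel {K L Q' : Type} [Field K] [Field L] [Algebra K L] [Field Q']
    [Algebra Q' L] {k : ℕ} (x : Fin k → L) (hx : AlgebraicIndependent K x)
    (φ : MvPolynomial (Fin k) K →+* Q') (hφ : ∀ a, algebraMap Q' L (φ a) = aeval x a)
    (y : L) (P : MvPolynomial (Fin (k + 1)) K) (hP : P ≠ 0)
    (h : aeval (Fin.cons y x : Fin (k + 1) → L) P = 0) : IsAlgebraic Q' y := by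
  have hφi : Function.Injective φ := by
    intro a b hab
    have h1 := hφ a
    rw [hab, hφ b] at h1
    exact hx h1.symm
  refine ⟨(finSuccEquiv K k P).map φ, ?_, ?_⟩
  · intro h0
    rw [Polynomial.map_eq_zero_iff hφi] at h0
    exact hP ((map_eq_zero_iff _ (finSuccEquiv K k).injective).1 h0)
  · have e1 : ∀ R : MvPolynomial (Fin (k + 1)) K,
        Polynomial.aeval y ((finSuccEquiv K k R).map φ) =
          aeval (Fin.cons y x : Fin (k + 1) → L) R := by
      intro R
      induction R using MvPolynomial.induction_on with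
      | C a =>
        rw [finSuccEquiv_apply]
        simp only [eval₂Hom_C, RingHom.coe_comp, Function.comp_apply, Polynomial.map_C,
          Polynomial.aeval_C, hφ, aeval_C]
      | add p q hp hq =>
        rw [map_add, Polynomial.map_add, map_add, map_add, hp, hq]
      | mul_X p i hp =>
        rw [map_mul, Polynomial.map_mul, map_mul, map_mul, hp]
        congr 1
        rw [aeval_X]
        refine Fin.cases ?_ (fun j => ?_) i
        · rw [finSuccEquiv_X_zero, Polynomial.map_X, Polynomial.aeval_X]; rfl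
        · rw [finSuccEquiv_X_succ, Polynomial.map_C, Polynomial.aeval_C, hφ, aeval_X]; rfl
    rw [e1, h]

end TransAux

open TransAux

theorem union_subspaces {K L F : Type} [Field K] [CharZero K] [IsAlgClosed K] [Field L]
    [Algebra K L] [Field F] [Algebra F L]
    (hF : ∀ c : F, ∃ c' : K, algebraMap F L c = algebraMap K L c')
    {k d r : ℕ} (hk : 0 < k) (hd : 0 < d) (x : Fin k → L) (hx : AlgebraicIndependent K x)
    (V : Submodule F L) [FiniteDimensional F V] (hV : Module.finrank F V ≤ r) :
    ∃ (n : ℕ) (U : Fin n → Submodule F L), n ≤ Bd r d ^ r ∧ (∀ i, U i ≤ V) ∧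
      ∀ y ∈ V, (¬ Good K d (Fin.cons y x : Fin (k + 1) → L)) ↔ ∃ i, y ∈ U i := by
  classical
  -- the scalars
  choose f hf using hF
  have hKi : Function.Injective (algebraMap K L) := (algebraMap K L).injective
  let σ : F →+* K :=
    { toFun := f
      map_one' := hKi (by rw [← hf, map_one, map_one])
      map_mul' := fun a b => hKi (by rw [← hf, map_mul, map_mul, hf, hf])
      map_zero' := hKi (by rw [← hf, map_zero, map_zero])
      map_add' := fun a b => hKi (by rw [← hf, map_add, map_add, hf, hf]) }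
  have hσ : ∀ c, algebraMap F L c = algebraMap K L (σ c) := hf
  let algF : Algebra F (Om K k) := ((algebraMap K (Om K k)).comp σ).toAlgebra
  have hFO : ∀ c : F, algebraMap F (Om K k) c = algebraMap K (Om K k) (σ c) := fun c => rfl
  -- the rational function field inside `L`
  have hxi : Function.Injective ((aeval x : A K k →ₐ[K] L) : A K k →+* L) := hx
  let φ : Q K k →+* L := IsFractionRing.lift (K := Q K k) hxi
  let algQ : Algebra (Q K k) L := φ.toAlgebra
  have hφ : ∀ a : A K k, algebraMap (Q K k) L (algebraMap (A K k) (Q K k) a) = aeval x a := by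
    intro a
    exact IsFractionRing.lift_algebraMap hxi a
  let M : IntermediateField (Q K k) L := algebraicClosure (Q K k) L
  let ψ : M →ₐ[Q K k] Om K k := IsAlgClosed.lift
  have hψi : Function.Injective ψ := ψ.toRingHom.injective
  -- `K` in `M`
  let kM : K →+* M := (algebraMap (Q K k) M).comp ((algebraMap (A K k) (Q K k)).comp C)
  have hkL : ∀ a : K, ((kM a : M) : L) = algebraMap K L a := by
    intro a
    have h1 : ((kM a : M) : L) = algebraMap (Q K k) L (algebraMap (A K k) (Q K k) (C a)) := rfl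
    rw [h1, hφ, aeval_C]
  have hkO : ∀ a : K, ψ (kM a) = algebraMap K (Om K k) a := by
    intro a
    have h1 : ψ (kM a) = algebraMap (Q K k) (Om K k) (algebraMap (A K k) (Q K k) (C a)) :=
      ψ.commutes _
    rw [h1, ← IsScalarTower.algebraMap_apply, ← algebraMap_eq, ← IsScalarTower.algebraMap_apply]
  let xM : Fin k → M := fun j => algebraMap (Q K k) M (algebraMap (A K k) (Q K k) (X j))
  have hxL : ∀ j, ((xM j : M) : L) = x j := by
    intro j
    have h1 : ((xM j : M) : L) = algebraMap (Q K k) L (algebraMap (A K k) (Q K k) (X j)) := rfl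
    rw [h1, hφ, aeval_X]
  have hxO : ∀ j, ψ (xM j) = gx K k j := by
    intro j
    have h1 : ψ (xM j) = algebraMap (Q K k) (Om K k) (algebraMap (A K k) (Q K k) (X j)) :=
      ψ.commutes _
    rw [h1, ← IsScalarTower.algebraMap_apply]
    rfl
  -- relations on both sides
  have evL : ∀ (y : M) (P : MvPolynomial (Fin (k + 1)) K),
      ((eval₂ kM (Fin.cons y xM : Fin (k + 1) → M) P : M) : L) =
        aeval (Fin.cons (y : L) x : Fin (k + 1) → L) P := by
    intro y P
    have h1 := eval₂_comp_left (M.val : M →+* L) kM (Fin.cons y xM : Fin (k + 1) → M) P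
    have h2 : (M.val : M →+* L).comp kM = algebraMap K L := by
      ext a
      exact hkL a
    have h3 : ((M.val : M →+* L) ∘ (Fin.cons y xM : Fin (k + 1) → M)) =
        (Fin.cons (y : L) x : Fin (k + 1) → L) := by
      funext i
      refine Fin.cases rfl (fun j => hxL j) i
    rw [h2, h3] at h1
    rw [aeval_def]
    exact h1
  have evO : ∀ (y : M) (P : MvPolynomial (Fin (k + 1)) K),
      ψ (eval₂ kM (Fin.cons y xM : Fin (k + 1) → M) P) =
        aeval (Fin.cons (ψ y) (gx K k) : Fin (k + 1) → Om K k) P := by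
    intro y P
    have h1 := eval₂_comp_left (ψ : M →+* Om K k) kM (Fin.cons y xM : Fin (k + 1) → M) P
    have h2 : (ψ : M →+* Om K k).comp kM = algebraMap K (Om K k) := by
      ext a
      exact hkO a
    have h3 : ((ψ : M →+* Om K k) ∘ (Fin.cons y xM : Fin (k + 1) → M)) =
        (Fin.cons (ψ y) (gx K k) : Fin (k + 1) → Om K k) := by
      funext i
      refine Fin.cases rfl (fun j => hxO j) i
    rw [h2, h3] at h1
    rw [aeval_def]
    exact h1
  have rel : ∀ y : M, (¬ Good K d (Fin.cons (y : L) x : Fin (k + 1) → L)) ↔ Ex K k d (ψ y) := by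
    intro y
    constructor
    · intro h
      unfold Good at h
      push Not at h
      obtain ⟨P, h1, h2, h3⟩ := h
      refine ⟨P, h3, h1, ?_⟩
      rw [← evO]
      have h4 : (eval₂ kM (Fin.cons y xM : Fin (k + 1) → M) P : M) = 0 := by
        apply Subtype.ext
        rw [evL, h2]
        rfl
      rw [h4, map_zero]
    · rintro ⟨P, h3, h1, h2⟩ hG
      apply h3
      apply hG P h1
      rw [← evO] at h2
      have h4 := (map_eq_zero_iff ψ hψi).1 h2
      rw [← evL, h4]
      rfl
  have alg : ∀ y : L, (¬ Good K d (Fin.cons y x : Fin (k + 1) → L)) → y ∈ M := by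
    intro y h
    unfold Good at h
    push Not at h
    obtain ⟨P, h1, h2, h3⟩ := h
    exact mem_algebraicClosure_iff.2 (isAlgebraic_of_rel x hx (algebraMap (A K k) (Q K k)) hφ y P
      h3 h2)
  -- `V_alg` and the linear map
  have hFM : ∀ (c : F), algebraMap F L c ∈ M := by
    intro c
    rw [hσ, ← hkL]
    exact (kM (σ c)).2
  let Va : Submodule F L :=
    { carrier := {y | y ∈ V ∧ y ∈ M}
      add_mem' := fun {a b} ha hb => ⟨V.add_mem ha.1 hb.1, M.add_mem ha.2 hb.2⟩
      zero_mem' := ⟨V.zero_mem, M.zero_mem⟩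
      smul_mem' := fun c {a} ha => ⟨V.smul_mem c ha.1, by
        rw [Algebra.smul_def]
        exact M.mul_mem (hFM c) ha.2⟩ }
  have hVa : Va ≤ V := fun y hy => hy.1
  let g : Va →ₗ[F] Om K k :=
    { toFun := fun y => ψ ⟨y, y.2.2⟩
      map_add' := fun a b => by
        rw [← map_add]
        rfl
      map_smul' := fun c a => by
        rw [RingHom.id_apply, Algebra.smul_def, hFO, ← hkO, ← map_mul]
        congr 1
        apply Subtype.ext
        have h1 : ((kM (σ c) * ⟨(a : L), a.2.2⟩ : M) : L) = ((kM (σ c) : M) : L) * (a : L) := rfl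
        rw [h1, hkL, ← hσ, ← Algebra.smul_def]
        rfl }
  have hfd : FiniteDimensional F Va := Submodule.finiteDimensional_of_le hVa
  let W : Submodule F (Om K k) := LinearMap.range g
  have hW : Module.finrank F W ≤ r :=
    (LinearMap.finrank_range_le g).trans ((Submodule.finrank_mono hVa).trans hV)
  obtain ⟨n, U', hn, hU', hS⟩ := rec_step (F := F) (E := Om K k) {η | Ex K k d η}
    (Ex_zero K k hd) (fun r => Bd r d) (Bd_mono hd) (Bd_one hd)
    (fun ρ η hη => key hk hd (fun c => ⟨σ c, rfl⟩) η hη) r W hW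
  refine ⟨n, fun i => (Submodule.comap g (U' i)).map Va.subtype, hn, ?_, ?_⟩
  · intro i y hy
    obtain ⟨z, _, rfl⟩ := hy
    exact hVa z.2
  · intro y hy
    constructor
    · intro h
      have hM := alg y h
      have hE := (rel ⟨y, hM⟩).1 h
      obtain ⟨i, hi⟩ := (hS (g ⟨y, hy, hM⟩) ⟨_, rfl⟩).1 hE
      exact ⟨i, ⟨⟨y, hy, hM⟩, hi, rfl⟩⟩
    · rintro ⟨i, z, hz, rfl⟩
      have hE := (hS (g z) ⟨_, rfl⟩).2 ⟨i, hz⟩
      exact (rel ⟨z, z.2.2⟩).2 hE

end Pool.Agent.QS
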