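import Mathlib

/-! # Gauss' lemma for the maximum of the valuations of the coefficients -/

namespace Pool.Agent.QS

variable {E Γ : Type} [Field E] [LinearOrderedCommGroupWithZero Γ]

/-- the elements of valuation `< 1` in the ring of integers -/
def mIdeal (v : Valuation E Γ) : Ideal v.integer where
  carrier := {x | v (x : E) < 1}
  zero_mem' := by simp
  add_mem' := fun {a b} ha hb => by
    change v ((a : E) + b) < 1
    exact v.map_add_lt ha hb
  smul_mem' := fun c x hx => by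
    change v ((c : E) * x) < 1
    rw [map_mul]
    exact mul_lt_one_of_nonneg_of_lt_one_right c.2 zero_le hx

theorem mem_mIdeal (v : Valuation E Γ) (x : v.integer) : x ∈ mIdeal v ↔ v (x : E) < 1 := Iff.rfl

theorem isPrime_mIdeal (v : Valuation E Γ) : (mIdeal v).IsPrime := by
  refine ⟨?_, ?_⟩
  · rw [Ideal.ne_top_iff_one, mem_mIdeal]
    simp
  · intro x y h
    by_contra hc
    rw [not_or, mem_mIdeal, mem_mIdeal, not_lt, not_lt] at hc
    have h1 : v (x : E) = 1 := le_antisymm x.2 hc.1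
    have h2 : v (y : E) = 1 := le_antisymm y.2 hc.2
    rw [mem_mIdeal] at h
    change v ((x : E) * y) < 1 at h
    rw [map_mul, h1, h2, one_mul] at h
    exact lt_irrefl _ h

/-- the case of integral coefficients -/
theorem gauss_aux {σ : Type} (v : Valuation E Γ) (f g : MvPolynomial σ E)
    (hf : ∀ m, v (MvPolynomial.coeff m f) ≤ 1) (hf1 : ∃ m, v (MvPolynomial.coeff m f) = 1)
    (hg : ∀ m, v (MvPolynomial.coeff m g) ≤ 1) (hg1 : ∃ m, v (MvPolynomial.coeff m g) = 1) :
    (∀ m, v (MvPolynomial.coeff m (f * g)) ≤ 1) ∧ ∃ m, v (MvPolynomial.coeff m (f * g)) = 1 := by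
  have hl : ∀ f : MvPolynomial σ E, (∀ m, v (MvPolynomial.coeff m f) ≤ 1) →
      ∃ f' : MvPolynomial σ v.integer, MvPolynomial.map v.integer.subtype f' = f := by
    intro f hf
    refine (MvPolynomial.mem_range_map_iff_coeffs_subset).2 ?_
    intro x hx
    obtain ⟨n, -, rfl⟩ := MvPolynomial.mem_coeffs_iff.1 (Finset.mem_coe.1 hx)
    exact ⟨⟨_, hf n⟩, rfl⟩
  obtain ⟨f', rfl⟩ := hl f hf
  obtain ⟨g', rfl⟩ := hl g hg
  have hc : ∀ (h : MvPolynomial σ v.integer) (m : σ →₀ ℕ),
      v (MvPolynomial.coeff m (MvPolynomial.map v.integer.subtype h)) =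
        v ((MvPolynomial.coeff m h : v.integer) : E) := by
    intro h m
    rw [MvPolynomial.coeff_map]
    rfl
  rw [← map_mul]
  refine ⟨fun m => ?_, ?_⟩
  · rw [hc]
    exact (MvPolynomial.coeff m (f' * g')).2
  · have : (mIdeal v).IsPrime := isPrime_mIdeal v
    let π : v.integer →+* v.integer ⧸ mIdeal v := Ideal.Quotient.mk (mIdeal v)
    have key : ∀ h : MvPolynomial σ v.integer,
        (∃ m, v (MvPolynomial.coeff m (MvPolynomial.map v.integer.subtype h)) = 1) ↔
        MvPolynomial.map π h ≠ 0 := by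
      intro h
      rw [MvPolynomial.ne_zero_iff]
      refine exists_congr fun m => ?_
      rw [hc, MvPolynomial.coeff_map, Ne, Ideal.Quotient.eq_zero_iff_mem, mem_mIdeal, not_lt]
      exact ⟨fun h1 => le_of_eq h1.symm, fun h1 => le_antisymm (MvPolynomial.coeff m h).2 h1⟩
    rw [key, map_mul]
    exact mul_ne_zero ((key f').1 hf1) ((key g').1 hg1)

theorem gauss_mul {σ : Type} (v : Valuation E Γ) (f g : MvPolynomial σ E) {M N : Γ} (hM : M ≠ 0)
    (hN : N ≠ 0)
    (hf : ∀ m, v (MvPolynomial.coeff m f) ≤ M) (hf1 : ∃ m, v (MvPolynomial.coeff m f) = M)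
    (hg : ∀ m, v (MvPolynomial.coeff m g) ≤ N) (hg1 : ∃ m, v (MvPolynomial.coeff m g) = N) :
    (∀ m, v (MvPolynomial.coeff m (f * g)) ≤ M * N) ∧
      ∃ m, v (MvPolynomial.coeff m (f * g)) = M * N := by
  obtain ⟨a, ha⟩ : ∃ a : E, v a = M := ⟨_, hf1.choose_spec⟩
  obtain ⟨b, hb⟩ : ∃ b : E, v b = N := ⟨_, hg1.choose_spec⟩
  have ha0 : a ≠ 0 := by
    rintro rfl
    rw [map_zero] at ha
    exact hM ha.symm
  have hb0 : b ≠ 0 := by
    rintro rfl
    rw [map_zero] at hb
    exact hN hb.symm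
  have key : ∀ {c : E} {L : Γ} {h : MvPolynomial σ E} (_ : v c = L) (_ : L ≠ 0) (m : σ →₀ ℕ),
      v (MvPolynomial.coeff m (MvPolynomial.C c⁻¹ * h)) = L⁻¹ * v (MvPolynomial.coeff m h) := by
    intro c L h hc hL m
    rw [MvPolynomial.coeff_C_mul, map_mul, map_inv₀, hc]
  have h1 := gauss_aux v (MvPolynomial.C a⁻¹ * f) (MvPolynomial.C b⁻¹ * g)
    (fun m => by
      rw [key ha hM]
      calc M⁻¹ * v (MvPolynomial.coeff m f) ≤ M⁻¹ * M := mul_le_mul_right (hf m) _
        _ = 1 := inv_mul_cancel₀ hM)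
    (by
      obtain ⟨m, hm⟩ := hf1
      exact ⟨m, by rw [key ha hM, hm, inv_mul_cancel₀ hM]⟩)
    (fun m => by
      rw [key hb hN]
      calc N⁻¹ * v (MvPolynomial.coeff m g) ≤ N⁻¹ * N := mul_le_mul_right (hg m) _
        _ = 1 := inv_mul_cancel₀ hN)
    (by
      obtain ⟨m, hm⟩ := hg1
      exact ⟨m, by rw [key hb hN, hm, inv_mul_cancel₀ hN]⟩)
  have h2 : f * g = MvPolynomial.C (a * b) *
      ((MvPolynomial.C a⁻¹ * f) * (MvPolynomial.C b⁻¹ * g)) := by
    have h3 : (MvPolynomial.C (a * b) : MvPolynomial σ E) * (MvPolynomial.C a⁻¹ *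
        MvPolynomial.C b⁻¹) = 1 := by
      rw [← map_mul, ← map_mul, ← MvPolynomial.C_1]
      congr 1
      field_simp
    calc f * g = 1 * (f * g) := (one_mul _).symm
      _ = (MvPolynomial.C (a * b) * (MvPolynomial.C a⁻¹ * MvPolynomial.C b⁻¹)) * (f * g) := by
        rw [h3]
      _ = _ := by ring
  have h4 : ∀ m, v (MvPolynomial.coeff m (f * g)) = M * N *
      v (MvPolynomial.coeff m ((MvPolynomial.C a⁻¹ * f) * (MvPolynomial.C b⁻¹ * g))) := by
    intro m
    conv_lhs => rw [h2]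
    rw [MvPolynomial.coeff_C_mul, map_mul, map_mul, ha, hb]
  refine ⟨fun m => ?_, ?_⟩
  · rw [h4]
    calc _ ≤ M * N * 1 := mul_le_mul_right (h1.1 m) _
      _ = M * N := mul_one _
  · obtain ⟨m, hm⟩ := h1.2
    exact ⟨m, by rw [h4, hm, mul_one]⟩

/-- the maximum of the valuations of the coefficients is multiplicative -/
theorem gauss_prod {σ ι : Type} (v : Valuation E Γ) (s : Finset ι)
    (l : ι → MvPolynomial σ E) (M : ι → Γ) (hM : ∀ i ∈ s, M i ≠ 0)
    (h1 : ∀ i ∈ s, ∀ m, v (MvPolynomial.coeff m (l i)) ≤ M i)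
    (h2 : ∀ i ∈ s, ∃ m, v (MvPolynomial.coeff m (l i)) = M i) :
    (∀ m, v (MvPolynomial.coeff m (∏ i ∈ s, l i)) ≤ ∏ i ∈ s, M i) ∧
      ∃ m, v (MvPolynomial.coeff m (∏ i ∈ s, l i)) = ∏ i ∈ s, M i := by
  classical
  induction s using Finset.induction_on with
  | empty =>
    simp only [Finset.prod_empty]
    refine ⟨fun m => ?_, 0, ?_⟩
    · rw [MvPolynomial.coeff_one]
      split_ifs
      · rw [map_one]
      · rw [map_zero]; exact zero_le
    · rw [MvPolynomial.coeff_one, if_pos rfl, map_one]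
  | insert a s ha ih =>
    rw [Finset.prod_insert ha, Finset.prod_insert ha]
    have ih' := ih (fun i hi => hM i (Finset.mem_insert_of_mem hi))
      (fun i hi => h1 i (Finset.mem_insert_of_mem hi))
      (fun i hi => h2 i (Finset.mem_insert_of_mem hi))
    exact gauss_mul v _ _ (hM a (Finset.mem_insert_self _ _))
      (Finset.prod_ne_zero_iff.2 fun i hi => hM i (Finset.mem_insert_of_mem hi))
      (h1 a (Finset.mem_insert_self _ _)) (h2 a (Finset.mem_insert_self _ _)) ih'.1 ih'.2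

theorem gauss_prod1 {ι : Type} (v : Valuation E Γ) (s : Finset ι)
    (l : ι → Polynomial E) (M : ι → Γ) (hM : ∀ i ∈ s, M i ≠ 0)
    (h1 : ∀ i ∈ s, ∀ m, v ((l i).coeff m) ≤ M i)
    (h2 : ∀ i ∈ s, ∃ m, v ((l i).coeff m) = M i) :
    (∀ m, v ((∏ i ∈ s, l i).coeff m) ≤ ∏ i ∈ s, M i) ∧
      ∃ m, v ((∏ i ∈ s, l i).coeff m) = ∏ i ∈ s, M i := by
  let φ := MvPolynomial.uniqueAlgEquiv E PUnit
  have hc : ∀ (p : Polynomial E) (m : PUnit →₀ ℕ),
      MvPolynomial.coeff m (φ.symm p) = p.coeff (m PUnit.unit) := by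
    intro p m
    exact MvPolynomial.coeff_uniqueAlgEquiv_symm E p m
  have hs : ∀ n : ℕ, (Finsupp.single PUnit.unit n) PUnit.unit = n := fun n => by simp
  have h3 := gauss_prod v s (fun i => φ.symm (l i)) M hM
    (fun i hi m => by rw [hc]; exact h1 i hi _)
    (fun i hi => by
      obtain ⟨m, hm⟩ := h2 i hi
      exact ⟨Finsupp.single PUnit.unit m, by rw [hc, hs]; exact hm⟩)
  rw [← map_prod] at h3
  refine ⟨fun m => ?_, ?_⟩
  · have := h3.1 (Finsupp.single PUnit.unit m)
    rwa [hc, hs] at this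
  · obtain ⟨m, hm⟩ := h3.2
    exact ⟨m PUnit.unit, by rw [← hc]; exact hm⟩

/-- a root of a polynomial with integral coefficients and unit leading coefficient is integral -/
theorem val_root_le {P : Polynomial E} (v : Valuation E Γ) (h1 : ∀ j, v (P.coeff j) ≤ 1)
    (h2 : v P.leadingCoeff = 1) (z : E) (hz : P.eval z = 0) : v z ≤ 1 := by
  by_contra hc
  rw [not_le] at hc
  rw [Polynomial.eval_eq_sum_range, Finset.sum_range_succ] at hz
  have h3 : v (P.coeff P.natDegree * z ^ P.natDegree) = v z ^ P.natDegree := by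
    rw [map_mul, map_pow]
    change v P.leadingCoeff * _ = _
    rw [h2, one_mul]
  have h4 : v (∑ i ∈ Finset.range P.natDegree, P.coeff i * z ^ i) < v z ^ P.natDegree := by
    apply Valuation.map_sum_lt
    · exact pow_ne_zero _ (ne_of_gt (lt_trans zero_lt_one hc))
    · intro i hi
      rw [map_mul, map_pow]
      calc v (P.coeff i) * v z ^ i ≤ 1 * v z ^ i := mul_le_mul_left (h1 i) _
        _ = v z ^ i := one_mul _
        _ < v z ^ P.natDegree := pow_lt_pow_right₀ hc (Finset.mem_range.1 hi)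
  have h5 : P.coeff P.natDegree * z ^ P.natDegree =
      -∑ i ∈ Finset.range P.natDegree, P.coeff i * z ^ i := by
    linear_combination hz
  rw [h5, Valuation.map_neg] at h3
  rw [h3] at h4
  exact lt_irrefl _ h4

end Pool.Agent.QS
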