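import Pool.Agent.QS.Wd

/-! # Primitive multiples and Gauss' lemma -/

namespace Pool.Agent.QS

open MvPolynomial

variable {K : Type} [Field K] {k : ℕ}

/-- a polynomial over `K(X)` with some coefficient `1` has a primitive multiple -/
theorem exists_primitive {σ : Type} (nQ : MvPolynomial σ (Q K k)) (m0 : σ →₀ ℕ)
    (h : coeff m0 nQ = 1) :
    ∃ (α : A K k) (N : MvPolynomial σ (A K k)), α ≠ 0 ∧
      MvPolynomial.map (algebraMap (A K k) (Q K k)) N = C (algebraMap (A K k) (Q K k) α) * nQ ∧
      ∀ p : A K k, Prime p → ∃ m, ¬ p ∣ coeff m N := by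
  classical
  have hinj : Function.Injective (algebraMap (A K k) (Q K k)) := IsFractionRing.injective _ _
  -- multiples with coefficients in `A`
  let S : Set (A K k) := {α | α ≠ 0 ∧ ∃ N : MvPolynomial σ (A K k),
    MvPolynomial.map (algebraMap (A K k) (Q K k)) N = C (algebraMap (A K k) (Q K k) α) * nQ}
  have hS : S.Nonempty := by
    obtain ⟨b, hb⟩ := IsLocalization.exist_integer_multiples (nonZeroDivisors (A K k)) nQ.support
      (fun m => coeff m nQ)
    have hb' : ∀ m, ∃ a : A K k, algebraMap (A K k) (Q K k) a =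
        algebraMap (A K k) (Q K k) (b : A K k) * coeff m nQ := by
      intro m
      by_cases hm : m ∈ nQ.support
      · obtain ⟨a, ha⟩ := hb m hm
        exact ⟨a, by rw [ha, Algebra.smul_def]⟩
      · exact ⟨0, by rw [notMem_support_iff.1 hm, mul_zero, map_zero]⟩
    choose a ha using hb'
    refine ⟨(b : A K k), nonZeroDivisors.ne_zero b.2, ∑ m ∈ nQ.support, monomial m (a m), ?_⟩
    rw [map_sum]
    conv_rhs => rw [← support_sum_monomial_coeff nQ, Finset.mul_sum]
    refine Finset.sum_congr rfl fun m _ => ?_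
    rw [map_monomial, ha, C_mul_monomial]
  obtain ⟨α, hα, hmin⟩ := (wellFounded_dvdNotUnit (α := A K k)).has_min S hS
  obtain ⟨hα0, N, hN⟩ := hα
  refine ⟨α, N, hα0, hN, fun p hp => ?_⟩
  by_contra hcon
  push Not at hcon
  choose b hb using hcon
  -- `N = p N'`
  have hN' : N = C p * ∑ m ∈ N.support, monomial m (b m) := by
    conv_lhs => rw [← support_sum_monomial_coeff N]
    rw [Finset.mul_sum]
    refine Finset.sum_congr rfl fun m _ => ?_
    rw [C_mul_monomial, ← hb m]
  -- `α = coeff m0 N` is divisible by `p`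
  have hα' : α = coeff m0 N := by
    have h1 := congrArg (coeff m0) hN
    rw [coeff_map, coeff_C_mul, h, mul_one] at h1
    exact (hinj h1).symm
  have hαp : α = p * b m0 := by rw [hα', ← hb m0]
  have hb0 : b m0 ≠ 0 := by
    intro h1
    rw [h1, mul_zero] at hαp
    exact hα0 hαp
  refine hmin (b m0) ⟨hb0, ∑ m ∈ N.support, monomial m (b m), ?_⟩ ?_
  · have hp0 : (C (algebraMap (A K k) (Q K k) p) : MvPolynomial σ (Q K k)) ≠ 0 := by
      intro h1
      rw [C_eq_zero] at h1
      exact hp.ne_zero (hinj (h1.trans (map_zero _).symm))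
    refine mul_left_cancel₀ hp0 ?_
    rw [← mul_assoc, ← C_mul, ← map_mul (algebraMap (A K k) (Q K k)), ← hαp, ← hN]
    conv_rhs => rw [hN']
    rw [map_mul, map_C]
  · refine ⟨hb0, p, hp.not_isUnit, ?_⟩
    rw [hαp, mul_comm]

/-- a primitive divisor over `K(X)` is a divisor over `K[X]`, so its degree is smaller -/
theorem wd_le_of_dvd (N P : Polynomial (A K k)) (hP : P ≠ 0)
    (hprim : ∀ p : A K k, Prime p → ∃ j, ¬ p ∣ N.coeff j)
    (hdvd : N.map (algebraMap (A K k) (Q K k)) ∣ P.map (algebraMap (A K k) (Q K k))) :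
    wd N ≤ wd P := by
  have hinj : Function.Injective (algebraMap (A K k) (Q K k)) := IsFractionRing.injective _ _
  have hN0 : N ≠ 0 := by
    rintro rfl
    rw [Polynomial.map_zero, zero_dvd_iff] at hdvd
    exact hP ((Polynomial.map_eq_zero_iff hinj).1 hdvd)
  have hpr : N.IsPrimitive := by
    intro r hr
    by_contra hu
    have hr0 : r ≠ 0 := by
      rintro rfl
      rw [Polynomial.C_0, zero_dvd_iff] at hr
      exact hN0 hr
    obtain ⟨p, hp, hpr⟩ := WfDvdMonoid.exists_irreducible_factor hu hr0
    obtain ⟨j, hj⟩ := hprim p (UniqueFactorizationMonoid.irreducible_iff_prime.1 hp)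
    exact hj (hpr.trans ((Polynomial.C_dvd_iff_dvd_coeff r N).1 hr j))
  obtain ⟨M, hM⟩ := hpr.dvd_of_fraction_map_dvd_fraction_map hdvd
  have hM0 : M ≠ 0 := by
    rintro rfl
    rw [mul_zero] at hM
    exact hP hM
  rw [hM, wd_mul N M hN0 hM0]
  exact Nat.le_add_right _ _

/-- the number of prime factors is at most the total degree -/
theorem card_factors_le (f : A K k) (hf : f ≠ 0) :
    Multiset.card (UniqueFactorizationMonoid.factors f) ≤ f.totalDegree := by
  have hdeg : ∀ q : A K k, Prime q → 1 ≤ q.totalDegree := by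
    intro q hq
    by_contra hcon
    have h0 : q.totalDegree = 0 := by omega
    rw [totalDegree_eq_zero_iff_eq_C] at h0
    have hc : coeff 0 q ≠ 0 := by
      intro h1
      rw [h1, C_0] at h0
      exact hq.ne_zero h0
    apply hq.not_isUnit
    rw [h0]
    exact (isUnit_iff_ne_zero.2 hc).map C
  have hprod : ∀ s : Multiset (A K k), (∀ q ∈ s, Prime q) →
      Multiset.card s ≤ s.prod.totalDegree := by
    intro s
    induction s using Multiset.induction_on with
    | empty => intro _; rw [Multiset.card_zero]; exact Nat.zero_le _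
    | cons q s ih =>
      intro hs
      have hq := hs q (Multiset.mem_cons_self q s)
      have hs' : ∀ q ∈ s, Prime q := fun q' hq' => hs q' (Multiset.mem_cons_of_mem hq')
      have hs0 : s.prod ≠ 0 := Multiset.prod_ne_zero fun h0 => (hs' 0 h0).ne_zero rfl
      rw [Multiset.card_cons, Multiset.prod_cons, totalDegree_mul_of_isDomain hq.ne_zero hs0]
      have h1 := ih hs'
      have h2 := hdeg q hq
      omega
  have h1 := hprod (UniqueFactorizationMonoid.factors f)
    fun q hq => UniqueFactorizationMonoid.prime_of_factor q hq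
  obtain ⟨u, hu⟩ := UniqueFactorizationMonoid.factors_prod hf
  have hp0 : (UniqueFactorizationMonoid.factors f).prod ≠ 0 := by
    intro h0
    rw [h0, zero_mul] at hu
    exact hf hu.symm
  have h2 := totalDegree_mul_of_isDomain hp0 (Units.ne_zero u)
  rw [hu] at h2
  omega

/-- the primes that divide one of the `f_a`: at most `∑ totalDegree` up to associates -/
theorem exists_primes {ρ : ℕ} (f : Fin ρ → A K k) (hf : ∀ a, f a ≠ 0) (D : ℕ)
    (hD : ∀ a, (f a).totalDegree ≤ D) :
    ∃ (w : ℕ) (p : Fin w → A K k), w ≤ ρ * D ∧ (∀ i, Prime (p i)) ∧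
      ∀ q : A K k, Prime q → (∃ a, q ∣ f a) → ∃ i, Associated q (p i) := by
  classical
  have hmem : ∀ x, x ∈ (∑ a, UniqueFactorizationMonoid.factors (f a)).toList ↔
      ∃ a, x ∈ UniqueFactorizationMonoid.factors (f a) := by
    intro x
    rw [Multiset.mem_toList, Multiset.mem_sum]
    simp
  refine ⟨(∑ a, UniqueFactorizationMonoid.factors (f a)).toList.length,
    fun i => (∑ a, UniqueFactorizationMonoid.factors (f a)).toList.get i, ?_, ?_, ?_⟩
  · rw [Multiset.length_toList, Multiset.card_sum]
    refine (Finset.sum_le_card_nsmul Finset.univ _ D fun a _ =>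
      (card_factors_le (f a) (hf a)).trans (hD a)).trans ?_
    rw [Finset.card_univ, Fintype.card_fin, smul_eq_mul]
  · intro i
    obtain ⟨a, ha⟩ := (hmem _).1 (List.get_mem _ i)
    exact UniqueFactorizationMonoid.prime_of_factor _ ha
  · rintro q hq ⟨a, ha⟩
    obtain ⟨x, hx, hqx⟩ := UniqueFactorizationMonoid.exists_mem_factors_of_dvd (hf a)
      hq.irreducible ha
    obtain ⟨i, hi⟩ := List.get_of_mem ((hmem x).2 ⟨a, hx⟩)
    refine ⟨i, ?_⟩
    show Associated q ((∑ a, UniqueFactorizationMonoid.factors (f a)).toList.get i)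
    rw [hi]
    exact hqx

end Pool.Agent.QS
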