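import Pool.Agent.QS.Trans
import Pool.Agent.QT.Tuples
import Pool.Agent.QR.Elliptic

/-! # The dimension bound and the final statement -/

namespace Pool.Agent.QS

open MvPolynomial Module Pool.Agent.QT

/-- bad over the algebraic numbers -/
def BadC (d : ℕ) {k : ℕ} (x : Fin k → ℂ) (y : ℂ) : Prop :=
  ∃ P : MvPolynomial (Fin (k + 1)) ℂ, P ≠ 0 ∧ P.totalDegree ≤ d ∧
    (∀ m, IsAlgebraic ℚ (P.coeff m)) ∧ eval (Fin.cons y x : Fin (k + 1) → ℂ) P = 0

private theorem fin_lift {σ : Type} (P : MvPolynomial σ ℂ) (h : ∀ m, IsAlgebraic ℚ (P.coeff m)) :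
    ∃ Q : MvPolynomial σ (algebraicClosure ℚ ℂ),
      MvPolynomial.map (algebraMap (algebraicClosure ℚ ℂ) ℂ) Q = P := by
  have : P ∈ Set.range (MvPolynomial.map (σ := σ) (algebraMap (algebraicClosure ℚ ℂ) ℂ)) := by
    rw [mem_range_map_iff_coeffs_subset]
    intro c hc
    obtain ⟨e, -, rfl⟩ := mem_coeffs_iff.1 (Finset.mem_coe.1 hc)
    exact ⟨⟨P.coeff e, mem_algebraicClosure_iff.2 (h e)⟩, rfl⟩
  exact this

private theorem fin_degree {σ : Type} (Q : MvPolynomial σ (algebraicClosure ℚ ℂ)) :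
    (MvPolynomial.map (algebraMap (algebraicClosure ℚ ℂ) ℂ) Q).totalDegree = Q.totalDegree := by
  rw [totalDegree, totalDegree, support_map_of_injective Q (FaithfulSMul.algebraMap_injective _ _)]

private theorem fin_coef {σ : Type} (Q : MvPolynomial σ (algebraicClosure ℚ ℂ)) (e : σ →₀ ℕ) :
    IsAlgebraic ℚ ((MvPolynomial.map (algebraMap (algebraicClosure ℚ ℂ) ℂ) Q).coeff e) := by
  rw [coeff_map]
  exact mem_algebraicClosure_iff.1 (Q.coeff e).2

private theorem fin_eval {σ : Type} (Q : MvPolynomial σ (algebraicClosure ℚ ℂ)) (y : σ → ℂ) :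
    eval y (MvPolynomial.map (algebraMap (algebraicClosure ℚ ℂ) ℂ) Q) = aeval y Q := by
  rw [eval_map, aeval_def]

theorem badC_iff (d : ℕ) {k : ℕ} (x : Fin k → ℂ) (y : ℂ) :
    BadC d x y ↔ ¬ Good (algebraicClosure ℚ ℂ) d (Fin.cons y x : Fin (k + 1) → ℂ) := by
  have hinj : Function.Injective (algebraMap (algebraicClosure ℚ ℂ) ℂ) :=
    FaithfulSMul.algebraMap_injective _ _
  constructor
  · rintro ⟨P, h0, h1, h2, h3⟩ hg
    obtain ⟨Q, rfl⟩ := fin_lift P h2
    refine h0 ?_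
    rw [hg Q (by rwa [fin_degree] at h1) (by rwa [fin_eval] at h3), map_zero]
  · intro h
    unfold Good at h
    push Not at h
    obtain ⟨Q, h1, h2, h3⟩ := h
    refine ⟨MvPolynomial.map (algebraMap (algebraicClosure ℚ ℂ) ℂ) Q, ?_, ?_, fin_coef Q, ?_⟩
    · intro h
      exact h3 (MvPolynomial.map_injective _ hinj (by rw [h, map_zero]))
    · rwa [fin_degree]
    · rwa [fin_eval]

/-- the exchange of the index sets -/
private def fe (k : ℕ) : Fin (k + 1) → Fin k ⊕ Fin 1 := Fin.cons (Sum.inr 0) Sum.inl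

private theorem fe_inj (k : ℕ) : Function.Injective (fe k) := by
  intro i j
  refine Fin.cases ?_ (fun i => ?_) i <;> refine Fin.cases ?_ (fun j => ?_) j
  · intro _; rfl
  · intro h; simp [fe] at h
  · intro h; simp [fe] at h
  · intro h
    simp only [fe, Fin.cons_succ] at h
    rw [Sum.inl_injective h]

/-- dimension bound from Theorem R+ (`QT.tuples_count` with `s = 1`, `c = 0`,
`r = binom(k+d, d)`): `(2H+1)^N ≤ C (2H+1)^(N-1)` is false for large `H`. -/
theorem dim_lt (F : Subfield ℂ) {k d : ℕ} (hd : 0 < d) (x : Fin k → ℂ)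
    (hx : AlgebraicIndependent ℚ x) (V : Submodule F ℂ)
    (hV : QR.Free (algebraicClosure ℚ ℂ) V) (U : Submodule F ℂ) [FiniteDimensional F U]
    (hUV : U ≤ V) (hU : ∀ y ∈ U, BadC d x y) : finrank F U < (k + d).choose d := by
  classical
  by_contra hcon
  push Not at hcon
  have hinj : Function.Injective (algebraMap (algebraicClosure ℚ ℂ) ℂ) :=
    FaithfulSMul.algebraMap_injective _ _
  set N := (k + d).choose d with hN
  have hN1 : 0 < N := Nat.choose_pos (Nat.le_add_left _ _)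
  -- `N` independent elements
  let b := Module.finBasis F U
  let v : Fin N → ℂ := fun j => (b (Fin.castLE hcon j) : ℂ)
  have hvU : ∀ j, v j ∈ U := fun j => (b (Fin.castLE hcon j)).2
  have hvi : LinearIndependent F v := by
    have h1 : LinearIndependent F (fun i => (b i : ℂ)) :=
      b.linearIndependent.map' U.subtype (Submodule.ker_subtype U)
    exact h1.comp _ (Fin.castLE_injective hcon)
  have hx' : AlgebraicIndependent (algebraicClosure ℚ ℂ) x := hx.algebraicClosure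
  obtain ⟨C, hC⟩ := tuples_count k 1 N d one_pos hd x (fun P hPa _ hP => by
      obtain ⟨Q, rfl⟩ := fin_lift P hPa
      rw [fin_eval] at hP
      rw [(algebraicIndependent_iff.1 hx') Q hP, map_zero]) (fun _ => 0) (fun _ => v)
    (fun _ c c0 hc hc0 h => by
      have h1 := hV (Fin N) v (fun j => hUV (hvU j)) hvi ⟨c0, mem_algebraicClosure_iff.2 hc0⟩
        (fun j => ⟨c j, mem_algebraicClosure_iff.2 (hc j)⟩) h
      exact ⟨congrArg Subtype.val h1.1, fun j => congrArg Subtype.val (h1.2 j)⟩)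
  -- all points of the box are bad
  have hbad : ∀ M : Fin 1 → Fin N → ℤ, ∃ P : MvPolynomial (Fin k ⊕ Fin 1) ℂ, P ≠ 0 ∧
      AlgCoef P ∧ P.totalDegree ≤ d ∧
      eval (Sum.elim x fun i => (0 : ℂ) + ∑ j, (M i j : ℂ) * v j) P = 0 := by
    intro M
    set y : ℂ := ∑ j, (M 0 j : ℂ) * v j with hy
    have hyU : y ∈ U := by
      rw [hy]
      refine U.sum_mem fun j _ => ?_
      have : (M 0 j : ℂ) * v j = (M 0 j : F) • v j := rfl
      rw [this]
      exact U.smul_mem _ (hvU j)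
    obtain ⟨P, h0, h1, h2, h3⟩ := hU y hyU
    refine ⟨rename (fe k) P, ?_, ?_, (totalDegree_rename_le _ _).trans h1, ?_⟩
    · intro h
      exact h0 (rename_injective _ (fe_inj k) (by rw [h, map_zero]))
    · intro m
      by_cases hm : ∃ u : Fin (k + 1) →₀ ℕ, u.mapDomain (fe k) = m
      · obtain ⟨u, rfl⟩ := hm
        rw [coeff_rename_mapDomain _ (fe_inj k)]
        exact h2 u
      · rw [coeff_rename_eq_zero _ _ _ fun u hu => absurd ⟨u, hu⟩ hm]
        exact isAlgebraic_zero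
    · have e : (Sum.elim x fun i => (0 : ℂ) + ∑ j, (M i j : ℂ) * v j) ∘ fe k =
          (Fin.cons y x : Fin (k + 1) → ℂ) := by
        funext i
        refine Fin.cases ?_ (fun i => ?_) i
        · simp only [Function.comp_apply, fe, Fin.cons_zero, Sum.elim_inr, zero_add, hy]
        · simp only [Function.comp_apply, fe, Fin.cons_succ, Sum.elim_inl]
      rw [eval_rename, e, h3]
  have h1 := hC C
  have h2 : {M : Fin 1 → Fin N → ℤ | (∀ i j, |M i j| ≤ (C : ℤ)) ∧
      ∃ P : MvPolynomial (Fin k ⊕ Fin 1) ℂ, P ≠ 0 ∧ AlgCoef P ∧ P.totalDegree ≤ d ∧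
        eval (Sum.elim x fun i => (0 : ℂ) + ∑ j, (M i j : ℂ) * v j) P = 0} =
      ((Fintype.piFinset fun _ : Fin 1 => Fintype.piFinset fun _ : Fin N =>
        Finset.Icc (-(C : ℤ)) C : Finset (Fin 1 → Fin N → ℤ)) : Set (Fin 1 → Fin N → ℤ)) := by
    ext M
    rw [Finset.mem_coe, Fintype.mem_piFinset]
    constructor
    · rintro ⟨h, -⟩ i
      rw [Fintype.mem_piFinset]
      intro j
      rw [Finset.mem_Icc]
      exact abs_le.1 (h i j)
    · intro h
      refine ⟨fun i j => ?_, hbad M⟩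
      have h' := Fintype.mem_piFinset.1 (h i) j
      rw [Finset.mem_Icc] at h'
      exact abs_le.2 h'
  rw [h2, Set.ncard_coe_finset, Fintype.card_piFinset] at h1
  simp only [Fintype.card_piFinset, Int.card_Icc, Finset.prod_const, Finset.card_univ,
    Fintype.card_fin, pow_one, Nat.sub_self, zero_mul, zero_add, add_zero] at h1
  have h3 : ((C : ℤ) + 1 - -(C : ℤ)).toNat = 2 * C + 1 := by omega
  rw [h3, ← hN] at h1
  obtain ⟨N', hN'⟩ : ∃ N', N = N' + 1 := ⟨N - 1, by omega⟩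
  rw [hN', Nat.add_sub_cancel, pow_succ, mul_comm] at h1
  have h4 := Nat.le_of_mul_le_mul_right h1 (Nat.pow_pos (by omega))
  omega

theorem main (F : Subfield ℂ) (hF : ∀ c ∈ F, IsAlgebraic ℚ c) {k d r : ℕ} (hk : 0 < k)
    (hd : 0 < d) (x : Fin k → ℂ) (hx : AlgebraicIndependent ℚ x) (t : Fin r → ℂ)
    (hV : QR.Free (algebraicClosure ℚ ℂ) (Submodule.span F (Set.range t))) :
    ∃ (n : ℕ) (U : Fin n → Submodule F ℂ), n ≤ ((r + 2) * d ^ (2 * r)) ^ r ∧
      (∀ i, U i ≤ Submodule.span F (Set.range t) ∧ finrank F (U i) < (k + d).choose d) ∧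
      {y ∈ Submodule.span F (Set.range t) | BadC d x y} = ⋃ i, (U i : Set ℂ) := by
  have : IsAlgClosed (algebraicClosure ℚ ℂ) := (algebraicClosure.isAlgClosure ℚ ℂ).isAlgClosed
  have hfin : FiniteDimensional F (Submodule.span F (Set.range t)) :=
    FiniteDimensional.span_of_finite F (Set.finite_range t)
  have hr : finrank F (Submodule.span F (Set.range t)) ≤ r := by
    have := finrank_range_le_card (R := F) t
    rwa [Fintype.card_fin] at this
  obtain ⟨n, U, hn, hUV, hU⟩ := union_subspaces (K := algebraicClosure ℚ ℂ) (L := ℂ) (F := F)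
    (fun c => ⟨⟨(c : ℂ), mem_algebraicClosure_iff.2 (hF c c.2)⟩, rfl⟩) hk hd x
    hx.algebraicClosure (Submodule.span F (Set.range t)) hr
  refine ⟨n, U, hn, fun i => ⟨hUV i, ?_⟩, ?_⟩
  · have hfi : FiniteDimensional F (U i) := Submodule.finiteDimensional_of_le (hUV i)
    exact dim_lt F hd x hx _ hV (U i) (hUV i) fun y hy =>
      (badC_iff d x y).2 ((hU y (hUV i hy)).2 ⟨i, hy⟩)
  · ext y
    rw [Set.mem_iUnion]
    constructor
    · rintro ⟨hy, hb⟩
      exact (hU y hy).1 ((badC_iff d x y).1 hb)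
    · rintro ⟨i, hi⟩
      exact ⟨hUV i hi, (badC_iff d x y).2 ((hU y (hUV i hi)).2 ⟨i, hi⟩)⟩

end Pool.Agent.QS
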