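import Pool.Agent.QS.Key

/-! # Finite unions of subspaces -/

namespace Pool.Agent.QS

open MvPolynomial

/-- the induction on the dimension, abstract: `S` is any set such that for vectors of `S` the key
step holds. -/
theorem rec_step {F E : Type} [Field F] [AddCommGroup E] [Module F E] (S : Set E) (h0 : (0 : E) ∈ S)
    (B : ℕ → ℕ) (hB : Monotone B) (hB1 : ∀ r, 1 ≤ B r)
    (hkey : ∀ (ρ : ℕ) (η : Fin ρ → E), (∀ a, η a ∈ S) →
      ∃ (n : ℕ) (H : Fin n → Submodule F (Fin ρ → F)), n ≤ B ρ ∧ (∀ i, H i ≠ ⊤) ∧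
        ((∃ c : Fin ρ → F, (∀ i, c ∉ H i) ∧ ∑ a, c a • η a ∈ S) →
          ∀ c : Fin ρ → F, ∑ a, c a • η a ∈ S))
    (r : ℕ) (W : Submodule F E) [FiniteDimensional F W] (hW : Module.finrank F W ≤ r) :
    ∃ (n : ℕ) (U : Fin n → Submodule F E), n ≤ B r ^ r ∧ (∀ i, U i ≤ W) ∧
      ∀ y ∈ W, y ∈ S ↔ ∃ i, y ∈ U i := by
  classical
  induction r generalizing W with
  | zero =>
    have hW0 : W = ⊥ := Submodule.finrank_eq_zero.1 (Nat.le_zero.1 hW)
    refine ⟨1, fun _ => ⊥, by simp, fun _ => bot_le, ?_⟩
    intro y hy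
    rw [hW0, Submodule.mem_bot] at hy
    subst hy
    exact ⟨fun _ => ⟨0, Submodule.zero_mem _⟩, fun _ => h0⟩
  | succ r ih =>
    -- the span of `W ∩ S` and a basis of it
    obtain ⟨b, hbS, hbspan, hbli⟩ := exists_linearIndependent F ((W : Set E) ∩ S)
    have hbW : ∀ v : b, (v : E) ∈ W := fun v => (hbS v.2).1
    have hli' : LinearIndependent F (fun v : b => (⟨(v : E), hbW v⟩ : W)) := by
      have h1 : LinearIndependent F (W.subtype ∘ fun v : b => (⟨(v : E), hbW v⟩ : W)) := hbli
      exact LinearIndependent.of_comp W.subtype h1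
    have hbfin : Finite b := hli'.finite
    have hft : Fintype b := Fintype.ofFinite b
    have hcard : Fintype.card b ≤ r + 1 := (hli'.fintype_card_le_finrank).trans hW
    obtain ⟨ρ, hρ⟩ : ∃ ρ, ρ = Fintype.card b := ⟨_, rfl⟩
    let e : Fin ρ ≃ b := (finCongr hρ).trans (Fintype.equivFin b).symm
    let η : Fin ρ → E := fun a => (e a : E)
    have hηS : ∀ a, η a ∈ S := fun a => (hbS (e a).2).2
    have hηW : ∀ a, η a ∈ W := fun a => (hbS (e a).2).1
    have hrange : Set.range η = b := by
      ext v
      constructor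
      · rintro ⟨a, rfl⟩
        exact (e a).2
      · intro hv
        exact ⟨e.symm ⟨v, hv⟩, by simp [η]⟩
    have hspan : ∀ y ∈ W, y ∈ S → ∃ c : Fin ρ → F, ∑ a, c a • η a = y := by
      intro y hy hyS
      have h1 : y ∈ Submodule.span F (Set.range η) := by
        rw [hrange, hbspan]
        exact Submodule.subset_span ⟨hy, hyS⟩
      exact (Submodule.mem_span_range_iff_exists_fun F).1 h1
    have hsumW : ∀ c : Fin ρ → F, ∑ a, c a • η a ∈ W := fun c =>
      W.sum_mem fun a _ => W.smul_mem _ (hηW a)
    obtain ⟨n, H, hn, hH, hkey'⟩ := hkey ρ η hηS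
    by_cases hc : ∃ c : Fin ρ → F, (∀ i, c ∉ H i) ∧ ∑ a, c a • η a ∈ S
    · -- the whole span is in `S`
      have hall := hkey' hc
      refine ⟨1, fun _ => Submodule.span F (Set.range η), Nat.one_le_pow _ _ (hB1 _), ?_, ?_⟩
      · intro _
        rw [Submodule.span_le]
        rintro _ ⟨a, rfl⟩
        exact hηW a
      · intro y hy
        constructor
        · intro hyS
          obtain ⟨c, hcy⟩ := hspan y hy hyS
          exact ⟨0, (Submodule.mem_span_range_iff_exists_fun F).2 ⟨c, hcy⟩⟩
        · rintro ⟨_, hyU⟩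
          obtain ⟨c, hcy⟩ := (Submodule.mem_span_range_iff_exists_fun F).1 hyU
          rw [← hcy]
          exact hall c
    · push Not at hc
      -- the map `c ↦ ∑ c a • η a`
      let T : (Fin ρ → F) →ₗ[F] E := Fintype.linearCombination F η
      have hT : ∀ c, T c = ∑ a, c a • η a := fun c => by
        simp [T, Fintype.linearCombination_apply]
      have hfr : ∀ i, Module.finrank F ((H i).map T) ≤ r := by
        intro i
        have h1 : Module.finrank F (H i) < Module.finrank F (Fin ρ → F) :=
          Submodule.finrank_lt (hH i)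
        rw [Module.finrank_fin_fun] at h1
        have h2 := Submodule.finrank_map_le T (H i)
        omega
      choose m U hm hUle hUiff using fun i => ih ((H i).map T) (hfr i)
      let ee := Fintype.equivFin (Σ i : Fin n, Fin (m i))
      refine ⟨Fintype.card (Σ i : Fin n, Fin (m i)), fun j => U (ee.symm j).1 (ee.symm j).2,
        ?_, ?_, ?_⟩
      · rw [Fintype.card_sigma]
        calc ∑ i, Fintype.card (Fin (m i)) ≤ ∑ _i : Fin n, B r ^ r := by
              refine Finset.sum_le_sum fun i _ => ?_
              rw [Fintype.card_fin]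
              exact hm i
          _ = n * B r ^ r := by simp
          _ ≤ B (r + 1) * B (r + 1) ^ r := by
              refine Nat.mul_le_mul (hn.trans (hB (by omega))) (Nat.pow_le_pow_left (hB (by omega)) _)
          _ = B (r + 1) ^ (r + 1) := by rw [pow_succ, mul_comm]
      · intro j y hy
        obtain ⟨c, _, rfl⟩ := hUle _ _ hy
        rw [hT]
        exact hsumW c
      · intro y hy
        constructor
        · intro hyS
          obtain ⟨c, hcy⟩ := hspan y hy hyS
          have h2 : ∃ i, c ∈ H i := by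
            by_contra hcon
            push Not at hcon
            exact hc c hcon (by rw [hcy]; exact hyS)
          obtain ⟨i, hi⟩ := h2
          have h3 : y ∈ (H i).map T := ⟨c, hi, by rw [hT, hcy]⟩
          obtain ⟨j, hj⟩ := (hUiff i y h3).1 hyS
          have h4 : ∀ p : (Σ i : Fin n, Fin (m i)), p = ⟨i, j⟩ → y ∈ U p.1 p.2 := by
            rintro p rfl
            exact hj
          exact ⟨ee ⟨i, j⟩, h4 _ (Equiv.symm_apply_apply ee _)⟩
        · rintro ⟨j, hj⟩
          exact (hUiff _ y (hUle _ _ hj)).2 ⟨_, hj⟩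

end Pool.Agent.QS
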