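import Mathlib

/-! # Definitions: the algebraic closure of `K(X_1, .., X_k)` and its elements of bounded degree -/

namespace Pool.Agent.QS

open MvPolynomial

/-- the polynomial ring -/
abbrev A (K : Type) [Field K] (k : ℕ) : Type := MvPolynomial (Fin k) K

/-- the rational function field -/
abbrev Q (K : Type) [Field K] (k : ℕ) : Type := FractionRing (A K k)

/-- its algebraic closure -/
abbrev Om (K : Type) [Field K] (k : ℕ) : Type := AlgebraicClosure (Q K k)

/-- the generic point -/
noncomputable def gx (K : Type) [Field K] (k : ℕ) : Fin k → Om K k :=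
  fun j => algebraMap (A K k) (Om K k) (X j)

/-- `η` satisfies with `X_1, .., X_k` a nonzero relation over `K` of total degree `≤ d` -/
def Ex (K : Type) [Field K] (k d : ℕ) (η : Om K k) : Prop :=
  ∃ P : MvPolynomial (Fin (k + 1)) K, P ≠ 0 ∧ P.totalDegree ≤ d ∧
    aeval (Fin.cons η (gx K k) : Fin (k + 1) → Om K k) P = 0

/-- the total degree in `(X, Y)` of a polynomial in `Y` with coefficients in `K[X]` -/
noncomputable def wd {K : Type} [Field K] {k : ℕ} (P : Polynomial (A K k)) : ℕ :=
  P.support.sup fun j => (P.coeff j).totalDegree + j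

/-- the bound for the number of subspaces in one step -/
def Bd (r d : ℕ) : ℕ := (r + 2) * d ^ (2 * r)

end Pool.Agent.QS
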