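import Pool.Agent.QS.Wd

/-! # The orbit polynomial -/

namespace Pool.Agent.QS

open MvPolynomial

variable {K : Type} [Field K] [CharZero K] {k : ℕ}

/-- the linear form `θ Y - ∑ β_a U_a` -/
noncomputable def lf {ρ : ℕ} (θ : Om K k) (β : Fin ρ → Om K k) :
    MvPolynomial (Option (Fin ρ)) (Om K k) := C θ * X none - ∑ a, C (β a) * X (some a)

/-- the conjugates of the vector `η` over `K(X)` -/
theorem exists_orbit {ρ d : ℕ} (η : Fin ρ → Om K k) (P : Fin ρ → Polynomial (A K k))
    (hP0 : ∀ a, P a ≠ 0) (hPd : ∀ a, (P a).natDegree ≤ d)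
    (hP : ∀ a, Polynomial.aeval (η a) (P a) = 0) :
    ∃ (e : ℕ) (β : Fin e → Fin ρ → Om K k), e ≤ d ^ ρ ∧ Function.Injective β ∧
      (∃ i, β i = η) ∧
      (∃ nQ : MvPolynomial (Option (Fin ρ)) (Q K k),
        MvPolynomial.map (algebraMap (Q K k) (Om K k)) nQ = ∏ i, lf 1 (β i)) ∧
      (∀ i a, Polynomial.aeval (β i a) (P a) = 0) ∧
      ∀ (c : Fin ρ → K) (R : Polynomial (Q K k)),
        Polynomial.aeval (∑ a, algebraMap K (Om K k) (c a) * η a) R = 0 →
          ∀ i, Polynomial.aeval (∑ a, algebraMap K (Om K k) (c a) * β i a) R = 0 := by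
  classical
  have hinj : Function.Injective (algebraMap (A K k) (Om K k)) := by
    rw [IsScalarTower.algebraMap_eq (A K k) (Q K k) (Om K k)]
    exact (algebraMap (Q K k) (Om K k)).injective.comp (IsFractionRing.injective _ _)
  let PO : Fin ρ → Polynomial (Om K k) := fun a => (P a).map (algebraMap (A K k) (Om K k))
  have hPO : ∀ a, PO a ≠ 0 := fun a h => hP0 a (Polynomial.map_injective _ hinj (by
    rw [Polynomial.map_zero]; exact h))
  let B : Finset (Fin ρ → Om K k) := Fintype.piFinset fun a => (PO a).roots.toFinset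
  have hB : B.card ≤ d ^ ρ := by
    rw [Fintype.card_piFinset]
    calc ∏ a, (PO a).roots.toFinset.card ≤ ∏ _a : Fin ρ, d := by
          refine Finset.prod_le_prod (fun _ _ => Nat.zero_le _) fun a _ => ?_
          refine (Multiset.toFinset_card_le _).trans ((Polynomial.card_roots' _).trans ?_)
          exact (Polynomial.natDegree_map_le).trans (hPd a)
      _ = d ^ ρ := by simp
  let O : Finset (Fin ρ → Om K k) := B.filter fun β =>
    ∃ g : Om K k ≃ₐ[Q K k] Om K k, β = fun a => g (η a)
  have hroot : ∀ (g : Om K k ≃ₐ[Q K k] Om K k) a, Polynomial.aeval (g (η a)) (P a) = 0 := by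
    intro g a
    have h1 : Polynomial.aeval (g (η a)) ((P a).map (algebraMap (A K k) (Q K k))) = 0 := by
      have h2 : Polynomial.aeval (η a) ((P a).map (algebraMap (A K k) (Q K k))) = 0 := by
        rw [Polynomial.aeval_map_algebraMap]
        exact hP a
      have h3 := congrArg g h2
      rw [map_zero] at h3
      rw [← h3]
      exact (Polynomial.aeval_algHom_apply g.toAlgHom (η a) _)
    rwa [Polynomial.aeval_map_algebraMap] at h1
  have hmem : ∀ g : Om K k ≃ₐ[Q K k] Om K k, (fun a => g (η a)) ∈ O := by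
    intro g
    refine Finset.mem_filter.2 ⟨?_, g, rfl⟩
    rw [Fintype.mem_piFinset]
    intro a
    rw [Multiset.mem_toFinset, Polynomial.mem_roots (hPO a), Polynomial.IsRoot.def,
      Polynomial.eval_map_algebraMap]
    exact hroot g a
  have hO : ∀ β ∈ O, ∃ g : Om K k ≃ₐ[Q K k] Om K k, β = fun a => g (η a) := fun β h =>
    (Finset.mem_filter.1 h).2
  let en := O.equivFin
  refine ⟨O.card, fun i => (en.symm i : Fin ρ → Om K k),
    (Finset.card_filter_le _ _).trans hB, ?_, ?_, ?_, ?_, ?_⟩
  · exact Subtype.val_injective.comp en.symm.injective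
  · refine ⟨en ⟨η, hmem AlgEquiv.refl⟩, ?_⟩
    simp
  · -- the coefficients
    have hprod : ∏ i, lf 1 ((en.symm i : Fin ρ → Om K k)) = ∏ β ∈ O, lf 1 β := by
      rw [← Finset.prod_coe_sort O (fun β => lf (K := K) (k := k) 1 β)]
      exact Equiv.prod_comp en.symm (fun β : O => lf (K := K) (k := k) 1 (β : Fin ρ → Om K k))
    rw [hprod]
    have hinv : ∀ g : Om K k ≃ₐ[Q K k] Om K k,
        MvPolynomial.map (g : Om K k →+* Om K k) (∏ β ∈ O, lf 1 β) = ∏ β ∈ O, lf 1 β := by
      intro g
      rw [map_prod]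
      refine Finset.prod_bij (fun β _ a => g (β a)) ?_ ?_ ?_ ?_
      · intro β hβ
        obtain ⟨g', rfl⟩ := hO β hβ
        exact hmem (g'.trans g)
      · intro β _ β' _ h
        funext a
        exact g.injective (congrFun h a)
      · intro β hβ
        obtain ⟨g', rfl⟩ := hO β hβ
        refine ⟨fun a => (g'.trans g.symm) (η a), hmem _, ?_⟩
        funext a
        simp
      · intro β _
        simp [lf]
    have : ∏ β ∈ O, lf 1 β ∈ Set.range (MvPolynomial.map (σ := Option (Fin ρ))
        (algebraMap (Q K k) (Om K k))) := by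
      rw [mem_range_map_iff_coeffs_subset]
      intro c hc
      obtain ⟨m, -, rfl⟩ := mem_coeffs_iff.1 (Finset.mem_coe.1 hc)
      have hG : IsGalois (Q K k) (Om K k) := {}
      rw [InfiniteGalois.mem_range_algebraMap_iff_fixed]
      intro g
      have h1 := congrArg (coeff m) (hinv g)
      rw [coeff_map] at h1
      exact h1
    exact this
  · intro i a
    obtain ⟨g, hg⟩ := hO _ (en.symm i).2
    change Polynomial.aeval ((en.symm i : Fin ρ → Om K k) a) (P a) = 0
    rw [hg]
    exact hroot g a
  · intro c R hR i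
    obtain ⟨g, hg⟩ := hO _ (en.symm i).2
    have h1 : ∑ a, algebraMap K (Om K k) (c a) * (en.symm i : Fin ρ → Om K k) a =
        g (∑ a, algebraMap K (Om K k) (c a) * η a) := by
      rw [map_sum, hg]
      refine Finset.sum_congr rfl fun a _ => ?_
      rw [map_mul, IsScalarTower.algebraMap_apply K (Q K k) (Om K k), AlgEquiv.commutes]
    change Polynomial.aeval (∑ a, algebraMap K (Om K k) (c a) *
      (en.symm i : Fin ρ → Om K k) a) R = 0
    rw [h1]
    have h3 := congrArg g hR
    rw [map_zero] at h3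
    rw [← h3]
    exact (Polynomial.aeval_algHom_apply g.toAlgHom _ _)

end Pool.Agent.QS
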