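import Pool.Agent.QS.ValP
import Pool.Agent.QS.ValI
import Pool.Agent.QS.Gl
import Pool.Agent.QS.Orb
import Pool.Agent.QS.Prim

/-! # The key step -/

namespace Pool.Agent.QS

open MvPolynomial

section
variable {K : Type} [Field K] {k : ℕ}

/-- evaluation of the variables `U_a` at `z`, `Y` stays -/
noncomputable def evU {R : Type} [CommRing R] {ρ : ℕ} (z : Fin ρ → R) :
    MvPolynomial (Option (Fin ρ)) R →ₐ[R] Polynomial R :=
  aeval fun o => o.elim Polynomial.X fun a => Polynomial.C (z a)

theorem evU_monomial {R : Type} [CommRing R] {ρ : ℕ} (z : Fin ρ → R)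
    (m : Option (Fin ρ) →₀ ℕ) (r : R) :
    evU z (monomial m r) = Polynomial.monomial (m none) (r * ∏ a, z a ^ m (some a)) := by
  rw [evU, aeval_monomial, Finsupp.prod_fintype _ _ (fun _ => pow_zero _), Fintype.prod_option]
  simp only [Option.elim_none, Option.elim_some, Polynomial.algebraMap_eq]
  rw [← Polynomial.C_mul_X_pow_eq_monomial, Polynomial.C_mul]
  simp only [map_prod, Polynomial.C_pow]
  ring

theorem evU_coeff {R : Type} [CommRing R] {ρ : ℕ} (z : Fin ρ → R)
    (f : MvPolynomial (Option (Fin ρ)) R) (j : ℕ) :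
    (evU z f).coeff j = ∑ m ∈ f.support.filter (fun m => m none = j),
      coeff m f * ∏ a, z a ^ m (some a) := by
  conv_lhs => rw [f.as_sum, map_sum]
  rw [Polynomial.finsetSum_coeff, Finset.sum_filter]
  refine Finset.sum_congr rfl fun m _ => ?_
  rw [evU_monomial, Polynomial.coeff_monomial]

theorem evU_zero_coeff {R : Type} [CommRing R] {ρ : ℕ}
    (f : MvPolynomial (Option (Fin ρ)) R) (j : ℕ) :
    (evU (0 : Fin ρ → R) f).coeff j = coeff (Finsupp.single none j) f := by
  classical
  rw [evU_coeff]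
  have h1 : ∀ m : Option (Fin ρ) →₀ ℕ, m none = j → m ≠ Finsupp.single none j →
      ∏ a, (0 : Fin ρ → R) a ^ m (some a) = 0 := by
    intro m hm hne
    by_contra h
    apply hne
    ext o
    rcases o with - | a
    · simp [hm]
    · have h2 : m (some a) = 0 := by
        by_contra h3
        exact h (Finset.prod_eq_zero (Finset.mem_univ a) (by simp [h3]))
      simp [h2]
  by_cases hj : Finsupp.single none j ∈ f.support
  · rw [Finset.sum_eq_single (Finsupp.single none j)]
    · simp
    · intro m hm hne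
      rw [h1 m (Finset.mem_filter.1 hm).2 hne, mul_zero]
    · intro h
      exact absurd (Finset.mem_filter.2 ⟨hj, by simp⟩) h
  · rw [notMem_support_iff.1 hj]
    refine Finset.sum_eq_zero fun m hm => ?_
    obtain ⟨hm1, hm2⟩ := Finset.mem_filter.1 hm
    rw [h1 m hm2 (fun h => hj (h ▸ hm1)), mul_zero]

theorem evU_map {R S : Type} [CommRing R] [CommRing S] (φ : R →+* S) {ρ : ℕ} (z : Fin ρ → R)
    (f : MvPolynomial (Option (Fin ρ)) R) :
    (evU z f).map φ = evU (fun a => φ (z a)) (MvPolynomial.map φ f) := by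
  have h : (Polynomial.mapRingHom φ).comp (evU z : MvPolynomial (Option (Fin ρ)) R →+* _) =
      (evU (fun a => φ (z a)) : MvPolynomial (Option (Fin ρ)) S →+* _).comp
        (MvPolynomial.map φ) := by
    refine MvPolynomial.ringHom_ext (fun r => ?_) fun o => ?_
    · simp [evU]
    · rcases o with - | a <;> simp [evU]
  exact DFunLike.congr_fun h f

theorem evU_lf {ρ : ℕ} (z : Fin ρ → Om K k) (θ : Om K k) (β : Fin ρ → Om K k) :
    evU z (lf θ β) = Polynomial.C θ * Polynomial.X - Polynomial.C (∑ a, β a * z a) := by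
  simp [evU, lf]

/-- scaling of `Y` -/
theorem coeff_lf_scale {ρ e : ℕ} (θ : Om K k) (β : Fin e → Fin ρ → Om K k)
    (m : Option (Fin ρ) →₀ ℕ) :
    coeff m (∏ i, lf θ (β i)) = θ ^ m none * coeff m (∏ i, lf 1 (β i)) := by
  classical
  let sc : MvPolynomial (Option (Fin ρ)) (Om K k) →ₐ[Om K k] MvPolynomial (Option (Fin ρ)) (Om K k) :=
    aeval fun o => o.elim (C θ * X none) fun a => X (some a)
  have h1 : ∀ i, sc (lf 1 (β i)) = lf θ (β i) := by
    intro i
    simp [sc, lf]
  have h2 : ∏ i, lf θ (β i) = sc (∏ i, lf 1 (β i)) := by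
    rw [map_prod]
    exact Finset.prod_congr rfl fun i _ => (h1 i).symm
  rw [h2]
  generalize (∏ i, lf 1 (β i)) = f
  induction f using MvPolynomial.induction_on' with
  | monomial m' r =>
    have h3 : sc (monomial m' r) = monomial m' (r * θ ^ m' none) := by
      simp only [sc]
      rw [aeval_monomial, Finsupp.prod_fintype _ _ (fun _ => pow_zero _), Fintype.prod_option]
      simp only [Option.elim_none, Option.elim_some, algebraMap_eq]
      rw [mul_pow, ← C_pow]
      rw [monomial_eq, Finsupp.prod_fintype _ _ (fun _ => pow_zero _), Fintype.prod_option, C_mul]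
      ring
    rw [h3, coeff_monomial, coeff_monomial]
    split_ifs with h4
    · rw [h4]
      ring
    · rw [mul_zero]
  | add p q hp hq => rw [map_add, coeff_add, hp, hq, coeff_add, mul_add]

end

section
variable {K : Type} [Field K] {k : ℕ} {F : Type} [Field F] [Algebra F (Om K k)]

/-- for a valuation trivial on `F` there is a proper subspace outside of which the maximum is
attained. -/
theorem exists_sub {Γ : Type} [LinearOrderedCommGroupWithZero Γ] (v : Valuation (Om K k) Γ)
    (hvF : ∀ c : F, v (algebraMap F (Om K k) c) ≤ 1) {ρ : ℕ} (hρ : 0 < ρ)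
    (β : Fin ρ → Om K k) (t : Γ) :
    ∃ (M : Γ) (H : Submodule F (Fin ρ → F)), H ≠ ⊤ ∧ t ≤ M ∧ (∀ a, v (β a) ≤ M) ∧
      (t = M ∨ ∃ a, v (β a) = M) ∧
      ∀ c : Fin ρ → F, v (∑ a, β a * algebraMap F (Om K k) (c a)) ≤ M ∧
        (c ∉ H → t = M ∨ v (∑ a, β a * algebraMap F (Om K k) (c a)) = M) := by
  classical
  have : Nonempty (Fin ρ) := ⟨⟨0, hρ⟩⟩
  obtain ⟨a0, ha0⟩ := Finite.exists_max fun a => v (β a)
  have hup : ∀ (c : Fin ρ → F) (M : Γ), (∀ a, v (β a) ≤ M) →
      v (∑ a, β a * algebraMap F (Om K k) (c a)) ≤ M := by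
    intro c M hM
    refine v.map_sum_le fun a _ => ?_
    rw [map_mul]
    calc v (β a) * v (algebraMap F (Om K k) (c a)) ≤ M * 1 := mul_le_mul' (hM a) (hvF _)
      _ = M := mul_one M
  by_cases ht : v (β a0) ≤ t
  · refine ⟨t, ⊥, ?_, le_rfl, fun a => (ha0 a).trans ht, Or.inl rfl, fun c =>
      ⟨hup c t fun a => (ha0 a).trans ht, fun _ => Or.inl rfl⟩⟩
    intro h
    have h1 : (Pi.single a0 (1 : F) : Fin ρ → F) ∈ (⊥ : Submodule F (Fin ρ → F)) := by
      rw [h]
      trivial
    rw [Submodule.mem_bot] at h1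
    have h2 := congrFun h1 a0
    simp at h2
  · push Not at ht
    let H : Submodule F (Fin ρ → F) :=
      { carrier := {c | v (∑ a, β a * algebraMap F (Om K k) (c a)) < v (β a0)}
        zero_mem' := by
          have : v (β a0) ≠ 0 := by
            intro h
            rw [h] at ht
            exact absurd ht (not_lt.2 zero_le')
          simp only [Set.mem_setOf_eq, Pi.zero_apply, map_zero, mul_zero, Finset.sum_const_zero]
          exact zero_lt_iff.2 this
        add_mem' := by
          intro x y hx hy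
          simp only [Set.mem_setOf_eq] at hx hy ⊢
          simp only [Pi.add_apply, map_add, mul_add, Finset.sum_add_distrib]
          exact (v.map_add _ _).trans_lt (max_lt hx hy)
        smul_mem' := by
          intro r x hx
          simp only [Set.mem_setOf_eq] at hx ⊢
          have h1 : ∑ a, β a * algebraMap F (Om K k) ((r • x) a) =
              algebraMap F (Om K k) r * ∑ a, β a * algebraMap F (Om K k) (x a) := by
            rw [Finset.mul_sum]
            refine Finset.sum_congr rfl fun a _ => ?_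
            rw [Pi.smul_apply, smul_eq_mul, map_mul]
            ring
          rw [h1, map_mul]
          calc v (algebraMap F (Om K k) r) * v (∑ a, β a * algebraMap F (Om K k) (x a))
              ≤ 1 * v (∑ a, β a * algebraMap F (Om K k) (x a)) := mul_le_mul' (hvF r) le_rfl
            _ = _ := one_mul _
            _ < v (β a0) := hx }
    refine ⟨v (β a0), H, ?_, ht.le, ha0, Or.inr ⟨a0, rfl⟩, fun c => ⟨hup c _ ha0, fun hc => Or.inr ?_⟩⟩
    · intro h
      have h1 : (Pi.single a0 (1 : F) : Fin ρ → F) ∈ H := by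
        rw [h]
        trivial
      have h2 : v (∑ a, β a * algebraMap F (Om K k) ((Pi.single a0 (1 : F) : Fin ρ → F) a)) <
          v (β a0) := h1
      rw [Finset.sum_eq_single a0] at h2
      · simp at h2
      · intro a _ ha
        rw [Pi.single_eq_of_ne ha, map_zero, mul_zero]
      · intro h3
        exact absurd (Finset.mem_univ _) h3
    · refine le_antisymm (hup c _ ha0) ?_
      by_contra h
      push Not at h
      exact hc h

/-- coefficients of a linear form -/
theorem lf_val {Γ : Type} [LinearOrderedCommGroupWithZero Γ] (v : Valuation (Om K k) Γ) {ρ : ℕ}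
    (θ : Om K k) (β : Fin ρ → Om K k) (M : Γ) (h1 : v θ ≤ M) (h2 : ∀ a, v (β a) ≤ M)
    (h3 : v θ = M ∨ ∃ a, v (β a) = M) :
    (∀ m, v (coeff m (lf θ β)) ≤ M) ∧ ∃ m, v (coeff m (lf θ β)) = M := by
  classical
  have hc : ∀ m : Option (Fin ρ) →₀ ℕ, coeff m (lf θ β) =
      (if m = Finsupp.single none 1 then θ else 0) -
        ∑ a, if m = Finsupp.single (some a) 1 then β a else 0 := by
    intro m
    rw [lf, coeff_sub, coeff_sum, coeff_C_mul, coeff_X']
    congr 1
    · split_ifs with h4 h5 h5 <;> simp_all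
    · refine Finset.sum_congr rfl fun a _ => ?_
      rw [coeff_C_mul, coeff_X']
      split_ifs with h4 h5 h5 <;> simp_all
  refine ⟨fun m => ?_, ?_⟩
  · rw [hc]
    refine (v.map_sub _ _).trans (max_le ?_ (v.map_sum_le fun a _ => ?_))
    · split_ifs
      · exact h1
      · rw [map_zero]
        exact zero_le'
    · split_ifs
      · exact h2 a
      · rw [map_zero]
        exact zero_le'
  · rcases h3 with h3 | ⟨a, h3⟩
    · refine ⟨Finsupp.single none 1, ?_⟩
      rw [hc, if_pos rfl, Finset.sum_eq_zero, sub_zero, h3]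
      intro a _
      rw [if_neg]
      intro h
      have := Finsupp.single_left_injective one_ne_zero h
      exact absurd this (by simp)
    · refine ⟨Finsupp.single (some a) 1, ?_⟩
      rw [hc, if_neg, zero_sub, Valuation.map_neg, Finset.sum_eq_single a, if_pos rfl, h3]
      · intro b _ hb
        rw [if_neg]
        intro h
        have := Finsupp.single_left_injective one_ne_zero h
        exact hb (Option.some_injective _ this).symm
      · intro h
        exact absurd (Finset.mem_univ a) h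
      · intro h
        have := Finsupp.single_left_injective one_ne_zero h
        exact absurd this (by simp)

theorem lin_val {Γ : Type} [LinearOrderedCommGroupWithZero Γ] (v : Valuation (Om K k) Γ)
    (θ z : Om K k) (M : Γ) (h1 : v θ ≤ M) (h2 : v z ≤ M) (h3 : v θ = M ∨ v z = M) :
    (∀ m, v ((Polynomial.C θ * Polynomial.X - Polynomial.C z).coeff m) ≤ M) ∧
      ∃ m, v ((Polynomial.C θ * Polynomial.X - Polynomial.C z).coeff m) = M := by
  have hc : ∀ m, (Polynomial.C θ * Polynomial.X - Polynomial.C z).coeff m =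
      (if m = 1 then θ else 0) - if m = 0 then z else 0 := by
    intro m
    rw [Polynomial.coeff_sub, Polynomial.coeff_C_mul, Polynomial.coeff_X, Polynomial.coeff_C]
    simp [eq_comm]
  refine ⟨fun m => ?_, ?_⟩
  · rw [hc]
    refine (v.map_sub _ _).trans (max_le ?_ ?_)
    · split_ifs
      · exact h1
      · rw [map_zero]
        exact zero_le'
    · split_ifs
      · exact h2
      · rw [map_zero]
        exact zero_le'
  · rcases h3 with h3 | h3
    · exact ⟨1, by rw [hc]; simpa using h3⟩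
    · exact ⟨0, by rw [hc]; simpa using h3⟩

/-- outside of `e` proper subspaces the maximum of the coefficients is the same before and after
the evaluation of `U` at `c`. -/
theorem exists_subs {Γ : Type} [LinearOrderedCommGroupWithZero Γ] (v : Valuation (Om K k) Γ)
    (hvF : ∀ c : F, v (algebraMap F (Om K k) c) ≤ 1) {ρ e : ℕ} (hρ : 0 < ρ)
    (β : Fin e → Fin ρ → Om K k) (θ : Om K k) (hθ : v θ ≠ 0) :
    ∃ (M : Γ) (H : Fin e → Submodule F (Fin ρ → F)), M ≠ 0 ∧ (∀ i, H i ≠ ⊤) ∧
      (∀ m, v (coeff m (∏ i, lf θ (β i))) ≤ M) ∧ (∃ m, v (coeff m (∏ i, lf θ (β i))) = M) ∧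
      ((∀ i a, v (β i a) ≤ v θ) → M = v θ ^ e) ∧
      ∀ c : Fin ρ → F, (∀ i, c ∉ H i) → ∃ m, v ((∏ i, (Polynomial.C θ * Polynomial.X -
        Polynomial.C (∑ a, β i a * algebraMap F (Om K k) (c a)))).coeff m) = M := by
  choose M H h1 h2 h3 h4 h5 using fun i => exists_sub v hvF hρ (β i) (v θ)
  have hM0 : ∀ i, M i ≠ 0 := fun i h => hθ (le_antisymm ((h2 i).trans h.le) zero_le')
  obtain ⟨g1, g2⟩ := gauss_prod v Finset.univ (fun i => lf θ (β i)) M (fun i _ => hM0 i)
    (fun i _ => (lf_val v θ (β i) (M i) (h2 i) (h3 i) (h4 i)).1)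
    (fun i _ => (lf_val v θ (β i) (M i) (h2 i) (h3 i) (h4 i)).2)
  refine ⟨∏ i, M i, H, Finset.prod_ne_zero_iff.2 fun i _ => hM0 i, h1, g1, g2, fun hle => ?_,
    fun c hc => ?_⟩
  · have : ∀ i, M i = v θ := fun i => by
      rcases h4 i with h6 | ⟨a, h6⟩
      · exact h6.symm
      · exact le_antisymm (h6 ▸ hle i a) (h2 i)
    rw [Finset.prod_congr rfl fun i _ => this i, Finset.prod_const, Finset.card_univ,
      Fintype.card_fin]
  · exact (gauss_prod1 v Finset.univ (fun i => Polynomial.C θ * Polynomial.X -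
        Polynomial.C (∑ a, β i a * algebraMap F (Om K k) (c a))) M (fun i _ => hM0 i)
      (fun i _ => (lin_val v θ _ (M i) (h2 i) ((h5 i c).1) ((h5 i c).2 (hc i))).1)
      (fun i _ => (lin_val v θ _ (M i) (h2 i) ((h5 i c).1) ((h5 i c).2 (hc i))).2)).2

end

section
variable {K : Type} [Field K] {k : ℕ}

theorem alg_inj : Function.Injective (algebraMap (A K k) (Om K k)) := by
  rw [IsScalarTower.algebraMap_eq (A K k) (Q K k) (Om K k)]
  exact (algebraMap (Q K k) (Om K k)).injective.comp (IsFractionRing.injective _ _)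

/-- the polynomial `N` at `U = c` -/
noncomputable def Nc {ρ : ℕ} (N : MvPolynomial (Option (Fin ρ)) (A K k)) (c : Fin ρ → K) :
    Polynomial (A K k) := evU (fun a => C (c a)) N

theorem algC (c : K) : algebraMap (A K k) (Om K k) (C c) = algebraMap K (Om K k) c := by
  rw [← MvPolynomial.algebraMap_eq, ← IsScalarTower.algebraMap_apply]

variable {ρ e : ℕ} (α : A K k) (N : MvPolynomial (Option (Fin ρ)) (A K k))
  (β : Fin e → Fin ρ → Om K k)

theorem map_Nc
    (hN : MvPolynomial.map (algebraMap (A K k) (Om K k)) N =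
      C (algebraMap (A K k) (Om K k) α) * ∏ i, lf 1 (β i)) (c : Fin ρ → K) :
    (Nc N c).map (algebraMap (A K k) (Om K k)) =
      Polynomial.C (algebraMap (A K k) (Om K k) α) *
        ∏ i, (Polynomial.C 1 * Polynomial.X -
          Polynomial.C (∑ a, β i a * algebraMap K (Om K k) (c a))) := by
  rw [Nc, evU_map, hN, map_mul, map_prod]
  simp only [evU_lf, algC]
  congr 1
  simp [evU]

theorem coeff_Nc
    (hN : MvPolynomial.map (algebraMap (A K k) (Om K k)) N =
      C (algebraMap (A K k) (Om K k) α) * ∏ i, lf 1 (β i)) (c : Fin ρ → K) (j : ℕ) :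
    algebraMap (A K k) (Om K k) ((Nc N c).coeff j) = algebraMap (A K k) (Om K k) α *
      (∏ i, (Polynomial.C 1 * Polynomial.X -
          Polynomial.C (∑ a, β i a * algebraMap K (Om K k) (c a)))).coeff j := by
  rw [← Polynomial.coeff_map, map_Nc α N β hN c, Polynomial.coeff_C_mul]

theorem coeff_N
    (hN : MvPolynomial.map (algebraMap (A K k) (Om K k)) N =
      C (algebraMap (A K k) (Om K k) α) * ∏ i, lf 1 (β i)) (m : Option (Fin ρ) →₀ ℕ) :
    algebraMap (A K k) (Om K k) (coeff m N) =
      algebraMap (A K k) (Om K k) α * coeff m (∏ i, lf 1 (β i)) := by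
  rw [← coeff_map, hN, coeff_C_mul]

theorem coeff_Nc_top
    (hN : MvPolynomial.map (algebraMap (A K k) (Om K k)) N =
      C (algebraMap (A K k) (Om K k) α) * ∏ i, lf 1 (β i)) (c : Fin ρ → K) :
    (Nc N c).coeff e = α := by
  apply alg_inj
  rw [coeff_Nc α N β hN]
  have h1 : (∏ i, (Polynomial.C 1 * Polynomial.X -
      Polynomial.C (∑ a, β i a * algebraMap K (Om K k) (c a)))).coeff e = 1 := by
    simp only [Polynomial.C_1, one_mul]
    have h2 : (∏ i : Fin e, (Polynomial.X - Polynomial.C
        (∑ a, β i a * algebraMap K (Om K k) (c a)))).Monic :=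
      Polynomial.monic_prod_of_monic _ _ fun i _ => Polynomial.monic_X_sub_C _
    have h3 : (∏ i : Fin e, (Polynomial.X - Polynomial.C
        (∑ a, β i a * algebraMap K (Om K k) (c a)))).natDegree = e := by
      rw [Polynomial.natDegree_prod_of_monic _ _ fun i _ => Polynomial.monic_X_sub_C _]
      simp only [Polynomial.natDegree_X_sub_C]
      simp
    have h4 := h2.coeff_natDegree
    rwa [h3] at h4
  rw [h1, mul_one]

variable {F : Type} [Field F] [Algebra F (Om K k)]
  (hF : ∀ c : F, ∃ c' : K, algebraMap F (Om K k) c = algebraMap K (Om K k) c')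

include hF in
/-- primitivity at a prime -/
theorem key_prime (hρ : 0 < ρ)
    (hN : MvPolynomial.map (algebraMap (A K k) (Om K k)) N =
      C (algebraMap (A K k) (Om K k) α) * ∏ i, lf 1 (β i))
    (p : A K k) (hp : Prime p) (hprim : ∃ m, ¬ p ∣ coeff m N) :
    ∃ H : Fin e → Submodule F (Fin ρ → F), (∀ i, H i ≠ ⊤) ∧
      ∀ (c : Fin ρ → F) (c' : Fin ρ → K),
        (∀ a, algebraMap F (Om K k) (c a) = algebraMap K (Om K k) (c' a)) →
        (∀ i, c ∉ H i) → ∃ j, ¬ p ∣ (Nc N c').coeff j := by
  obtain ⟨Γ, _, v, hv1, hv2⟩ := exists_val_prime p hp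
  have hvF : ∀ c : F, v (algebraMap F (Om K k) c) ≤ 1 := by
    intro c
    obtain ⟨c', hc'⟩ := hF c
    rw [hc', ← algC]
    exact hv1 _
  obtain ⟨M, H, hM0, hH, h1, ⟨m1, h2⟩, -, h3⟩ := exists_subs v hvF hρ β 1 (by simp)
  have hvp : ∀ f : A K k, ¬ p ∣ f → v (algebraMap (A K k) (Om K k) f) = 1 := fun f hf =>
    le_antisymm (hv1 f) (not_lt.1 fun h => hf ((hv2 f).1 h))
  have hαM : v (algebraMap (A K k) (Om K k) α) * M = 1 := by
    refine le_antisymm ?_ ?_
    · rw [← h2, ← map_mul, ← coeff_N α N β hN]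
      exact hv1 _
    · obtain ⟨m, hm⟩ := hprim
      rw [← hvp _ hm, coeff_N α N β hN, map_mul]
      exact mul_le_mul' le_rfl (h1 m)
  refine ⟨H, hH, fun c c' hcc hc => ?_⟩
  obtain ⟨j, hj⟩ := h3 c hc
  refine ⟨j, fun hdvd => ?_⟩
  have h4 := (hv2 _).2 hdvd
  rw [coeff_Nc α N β hN, map_mul] at h4
  simp only [hcc] at hj
  rw [hj, hαM] at h4
  exact lt_irrefl _ h4

/-- the degree of `N` in `(X, Y)` -/
noncomputable def Dg (N : MvPolynomial (Option (Fin ρ)) (A K k)) : ℕ :=
  N.support.sup fun m => (coeff m N).totalDegree + m none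

theorem wd_Nc_le (c : Fin ρ → K) : wd (Nc N c) ≤ Dg N := by
  refine wd_le _ _ fun j hj => ?_
  have h1 : (Nc N c).coeff j = ∑ m ∈ N.support.filter (fun m => m none = j),
      coeff m N * ∏ a, (C (c a) : A K k) ^ m (some a) := evU_coeff _ _ _
  rw [h1] at hj ⊢
  obtain ⟨m0, hm0, -⟩ := Finset.exists_ne_zero_of_sum_ne_zero hj
  have hj' : j ≤ Dg N := by
    obtain ⟨h2, h3⟩ := Finset.mem_filter.1 hm0
    have := Finset.le_sup (f := fun m => (coeff m N).totalDegree + m none) h2
    rw [Dg]
    omega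
  have h4 : (∑ m ∈ N.support.filter (fun m => m none = j),
      coeff m N * ∏ a, (C (c a) : A K k) ^ m (some a)).totalDegree ≤ Dg N - j := by
    refine totalDegree_finsetSum_le fun m hm => ?_
    obtain ⟨h2, h3⟩ := Finset.mem_filter.1 hm
    refine (totalDegree_mul _ _).trans ?_
    have h5 : (∏ a, (C (c a) : A K k) ^ m (some a)).totalDegree = 0 := by
      have : (∏ a, (C (c a) : A K k) ^ m (some a)) = C (∏ a, c a ^ m (some a)) := by
        rw [map_prod]
        simp only [C_pow]
      rw [this, totalDegree_C]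
    rw [h5]
    have := Finset.le_sup (f := fun m => (coeff m N).totalDegree + m none) h2
    rw [Dg]
    omega
  omega

include hF in
/-- the degree does not drop -/
theorem key_inf (hk : 0 < k) (hρ : 0 < ρ) (hα : α ≠ 0)
    (hN : MvPolynomial.map (algebraMap (A K k) (Om K k)) N =
      C (algebraMap (A K k) (Om K k) α) * ∏ i, lf 1 (β i)) :
    ∃ H : Fin e → Submodule F (Fin ρ → F), (∀ i, H i ≠ ⊤) ∧
      ∀ (c : Fin ρ → F) (c' : Fin ρ → K),
        (∀ a, algebraMap F (Om K k) (c a) = algebraMap K (Om K k) (c' a)) →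
        (∀ i, c ∉ H i) → Dg N ≤ wd (Nc N c') := by
  classical
  obtain ⟨Γ, _, v, hv1, hv2⟩ := exists_val_inf (K := K) (k := k) ⟨0, hk⟩
  set θ : Om K k := gx K k ⟨0, hk⟩ with hθ
  have hvF : ∀ c : F, v (algebraMap F (Om K k) c) ≤ 1 := by
    intro c
    obtain ⟨c', hc'⟩ := hF c
    rw [hc', ← algC]
    by_cases h0 : c' = 0
    · rw [h0, C_0, map_zero, map_zero]
      exact zero_le_one
    · rw [hv2 _ (by rwa [Ne, C_eq_zero]), totalDegree_C, pow_zero]
  have hθ0 : v θ ≠ 0 := (zero_lt_one.trans hv1).ne'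
  obtain ⟨M, H, hM0, hH, h1, ⟨m1, h2⟩, -, h3⟩ := exists_subs v hvF hρ β θ hθ0
  -- the value of a coefficient
  have hval : ∀ m, coeff m N ≠ 0 → v (algebraMap (A K k) (Om K k) α) *
      v (coeff m (∏ i, lf θ (β i))) = v θ ^ ((coeff m N).totalDegree + m none) := by
    intro m hm
    rw [coeff_lf_scale, map_mul, map_pow, mul_left_comm, ← map_mul, ← coeff_N α N β hN, hv2 _ hm,
      ← pow_add, add_comm]
  have hvα : v (algebraMap (A K k) (Om K k) α) ≠ 0 := by
    rw [hv2 _ hα]
    exact pow_ne_zero _ hθ0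
  have hαM : v (algebraMap (A K k) (Om K k) α) * M = v θ ^ Dg N := by
    have hne : coeff m1 N ≠ 0 := by
      intro h0
      have h4 := coeff_N α N β hN m1
      rw [h0, map_zero] at h4
      have h5 : coeff m1 (∏ i, lf 1 (β i)) = 0 :=
        (mul_eq_zero.1 h4.symm).resolve_left fun h => hα (alg_inj (by rw [h, map_zero]))
      rw [coeff_lf_scale, h5, mul_zero, map_zero] at h2
      exact hM0 h2.symm
    refine le_antisymm ?_ ?_
    · rw [← h2, hval m1 hne]
      refine pow_le_pow_right₀ hv1.le ?_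
      exact Finset.le_sup (f := fun m => (coeff m N).totalDegree + m none) (mem_support_iff.2 hne)
    · obtain ⟨m, hm, hmax⟩ := Finset.exists_mem_eq_sup N.support ⟨m1, mem_support_iff.2 hne⟩
        (fun m => (coeff m N).totalDegree + m none)
      rw [Dg, hmax, ← hval m (mem_support_iff.1 hm)]
      exact mul_le_mul' le_rfl (h1 m)
  refine ⟨H, hH, fun c c' hcc hc => ?_⟩
  obtain ⟨j, hj⟩ := h3 c hc
  simp only [hcc] at hj
  have hsc : (∏ i, (Polynomial.C θ * Polynomial.X -
      Polynomial.C (∑ a, β i a * algebraMap K (Om K k) (c' a)))).coeff j =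
      (∏ i, (Polynomial.C 1 * Polynomial.X -
      Polynomial.C (∑ a, β i a * algebraMap K (Om K k) (c' a)))).coeff j * θ ^ j := by
    rw [← Polynomial.comp_C_mul_X_coeff, Polynomial.prod_comp]
    congr 1
    refine Finset.prod_congr rfl fun i _ => ?_
    simp
  have h4 : v (algebraMap (A K k) (Om K k) ((Nc N c').coeff j)) * v θ ^ j = v θ ^ Dg N := by
    rw [coeff_Nc α N β hN, map_mul, ← hαM, ← hj, hsc, map_mul, map_pow, mul_assoc]
  have h5 : (Nc N c').coeff j ≠ 0 := by
    intro h0
    rw [h0, map_zero, map_zero, zero_mul] at h4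
    exact pow_ne_zero _ hθ0 h4.symm
  rw [hv2 _ h5, ← pow_add] at h4
  have h6 := pow_right_injective₀ (zero_lt_one.trans hv1) hv1.ne' h4
  rw [← h6]
  exact le_wd _ _ h5

/-- a prime that divides `α` divides a leading coefficient -/
theorem prime_dvd_lead (hρ : 0 < ρ)
    (hN : MvPolynomial.map (algebraMap (A K k) (Om K k)) N =
      C (algebraMap (A K k) (Om K k) α) * ∏ i, lf 1 (β i))
    (P : Fin ρ → Polynomial (A K k)) (hP : ∀ i a, Polynomial.aeval (β i a) (P a) = 0)
    (p : A K k) (hp : Prime p) (hprim : ∃ m, ¬ p ∣ coeff m N) (hpα : p ∣ α) :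
    ∃ a, p ∣ (P a).leadingCoeff := by
  by_contra hcon
  push Not at hcon
  obtain ⟨Γ, _, v, hv1, hv2⟩ := exists_val_prime p hp
  have hvp : ∀ f : A K k, ¬ p ∣ f → v (algebraMap (A K k) (Om K k) f) = 1 := fun f hf =>
    le_antisymm (hv1 f) (not_lt.1 fun h => hf ((hv2 f).1 h))
  have hβ : ∀ i a, v (β i a) ≤ 1 := by
    intro i a
    refine val_root_le (P := (P a).map (algebraMap (A K k) (Om K k))) v (fun j => ?_) ?_ _ ?_
    · rw [Polynomial.coeff_map]
      exact hv1 _
    · rw [Polynomial.leadingCoeff_map_of_injective alg_inj]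
      exact hvp _ (hcon a)
    · rw [Polynomial.eval_map_algebraMap]
      exact hP i a
  have hvK : ∀ c : K, v (algebraMap K (Om K k) c) ≤ 1 := fun c => by
    rw [← algC]
    exact hv1 _
  obtain ⟨M, H, hM0, hH, h1, -, hM1, -⟩ := exists_subs (F := K) v hvK hρ β 1 (by simp)
  have hM : M = 1 := by
    rw [hM1 (by simpa using hβ), map_one, one_pow]
  obtain ⟨m, hm⟩ := hprim
  have h2 := hvp _ hm
  rw [coeff_N α N β hN, map_mul] at h2
  have h3 := (hv2 α).2 hpα
  have h4 := h1 m
  rw [hM] at h4
  have h5 : v (algebraMap (A K k) (Om K k) α) * v (coeff m (∏ i, lf 1 (β i))) < 1 :=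
    lt_of_le_of_lt (mul_le_mul' le_rfl h4) (by rwa [mul_one])
  exact absurd h2 h5.ne

end

section
variable {K : Type} [Field K] [CharZero K] {k : ℕ} {F : Type} [Field F] [Algebra F (Om K k)]

theorem key (hk : 0 < k) {d ρ : ℕ} (hd : 0 < d)
    (hF : ∀ c : F, ∃ c' : K, algebraMap F (Om K k) c = algebraMap K (Om K k) c')
    (η : Fin ρ → Om K k) (hη : ∀ a, Ex K k d (η a)) :
    ∃ (n : ℕ) (H : Fin n → Submodule F (Fin ρ → F)), n ≤ Bd ρ d ∧ (∀ i, H i ≠ ⊤) ∧
      ((∃ c : Fin ρ → F, (∀ i, c ∉ H i) ∧ Ex K k d (∑ a, c a • η a)) →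
        ∀ c : Fin ρ → F, Ex K k d (∑ a, c a • η a)) := by
  classical
  rcases Nat.eq_zero_or_pos ρ with h0 | hρ
  · subst h0
    refine ⟨0, Fin.elim0, Nat.zero_le _, fun i => i.elim0, ?_⟩
    rintro ⟨c, -, hc⟩ c2
    simpa using hc
  choose P hP0 hPw hP using fun a => (Ex_iff d (η a)).1 (hη a)
  have hPn : ∀ a, 0 < (P a).natDegree := fun a => natDegree_pos (η a) (P a) (hP0 a) (hP a)
  have hlead : ∀ a, (P a).leadingCoeff.totalDegree + (P a).natDegree ≤ d := fun a =>
    (le_wd (P a) _ (Polynomial.leadingCoeff_ne_zero.2 (hP0 a))).trans (hPw a)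
  obtain ⟨e, β, he, hinj, ⟨i0, hi0⟩, ⟨nQ, hnQ⟩, hroot, hconj⟩ := exists_orbit η P hP0
    (fun a => (Nat.le_add_left _ _).trans (hlead a)) hP
  -- the primitive multiple
  have h1 : coeff (Finsupp.single none e) nQ = 1 := by
    apply (algebraMap (Q K k) (Om K k)).injective
    rw [← coeff_map, hnQ, ← evU_zero_coeff, map_prod, map_one]
    have h2 : ∀ i, evU (0 : Fin ρ → Om K k) (lf 1 (β i)) = Polynomial.X := by
      intro i
      rw [evU_lf]
      simp
    rw [Finset.prod_congr rfl fun i _ => h2 i, Finset.prod_const, Finset.card_univ,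
      Fintype.card_fin, Polynomial.coeff_X_pow, if_pos rfl]
  obtain ⟨α, N, hα, hN, hprim⟩ := exists_primitive nQ _ h1
  have hN' : MvPolynomial.map (algebraMap (A K k) (Om K k)) N =
      C (algebraMap (A K k) (Om K k) α) * ∏ i, lf 1 (β i) := by
    have h2 := congrArg (MvPolynomial.map (algebraMap (Q K k) (Om K k))) hN
    rw [map_mul, hnQ, MvPolynomial.map_map, map_C,
      ← IsScalarTower.algebraMap_eq (A K k) (Q K k) (Om K k),
      ← IsScalarTower.algebraMap_apply (A K k) (Q K k) (Om K k)] at h2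
    exact h2
  -- the primes
  obtain ⟨w, p, hw, hpp, hpall⟩ := exists_primes (fun a => (P a).leadingCoeff)
    (fun a => Polynomial.leadingCoeff_ne_zero.2 (hP0 a)) (d - 1) (fun a => by
      have := hlead a
      have := hPn a
      omega)
  choose H2 hH2 hH2' using fun q : Fin w => key_prime α N β hF hρ hN' (p q) (hpp q)
    (hprim (p q) (hpp q))
  obtain ⟨H3, hH3, hH3'⟩ := key_inf α N β hF hk hρ hα hN'
  -- the subspaces where two conjugates coincide
  let H1 : Fin e × Fin e → Submodule F (Fin ρ → F) := fun ij =>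
    if ij.1 = ij.2 then ⊥ else
    { carrier := {c | ∑ a, c a • (β ij.1 a - β ij.2 a) = 0}
      zero_mem' := by simp
      add_mem' := by
        intro x y hx hy
        have hx' : ∑ a, x a • (β ij.1 a - β ij.2 a) = 0 := hx
        have hy' : ∑ a, y a • (β ij.1 a - β ij.2 a) = 0 := hy
        change ∑ a, (x + y) a • (β ij.1 a - β ij.2 a) = 0
        simp only [Pi.add_apply, add_smul, Finset.sum_add_distrib, hx', hy', add_zero]
      smul_mem' := by
        intro r x hx
        have hx' : ∑ a, x a • (β ij.1 a - β ij.2 a) = 0 := hx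
        change ∑ a, (r • x) a • (β ij.1 a - β ij.2 a) = 0
        simp only [Pi.smul_apply, smul_eq_mul, mul_smul]
        rw [← Finset.smul_sum, hx', smul_zero] }
  have hH1 : ∀ ij, H1 ij ≠ ⊤ := by
    intro ij h
    by_cases hij : ij.1 = ij.2
    · simp only [H1, if_pos hij] at h
      have h2 : (Pi.single ⟨0, hρ⟩ (1 : F) : Fin ρ → F) ∈ (⊥ : Submodule F (Fin ρ → F)) := by
        rw [h]
        trivial
      rw [Submodule.mem_bot] at h2
      have h3 := congrFun h2 ⟨0, hρ⟩
      simp at h3
    · simp only [H1, if_neg hij] at h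
      apply hij
      apply hinj
      funext a
      have h2 : (Pi.single a (1 : F) : Fin ρ → F) ∈ (⊤ : Submodule F (Fin ρ → F)) := trivial
      rw [← h] at h2
      have h3 : ∑ a', (Pi.single a (1 : F) : Fin ρ → F) a' • (β ij.1 a' - β ij.2 a') = 0 := h2
      rw [Finset.sum_eq_single a] at h3
      · rw [Pi.single_eq_same, one_smul] at h3
        exact sub_eq_zero.1 h3
      · intro b _ hb
        rw [Pi.single_eq_of_ne hb, zero_smul]
      · intro h4
        exact absurd (Finset.mem_univ a) h4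
  let J := (Fin e × Fin e) ⊕ ((Fin w × Fin e) ⊕ Fin e)
  let HJ : J → Submodule F (Fin ρ → F) :=
    Sum.elim H1 (Sum.elim (fun q => H2 q.1 q.2) H3)
  have hHJ : ∀ j, HJ j ≠ ⊤ := by
    rintro (ij | (q | i))
    · exact hH1 ij
    · exact hH2 q.1 q.2
    · exact hH3 i
  refine ⟨Fintype.card J, fun j => HJ ((Fintype.equivFin J).symm j), ?_, fun j => hHJ _, ?_⟩
  · -- the number
    simp only [J, Fintype.card_sum, Fintype.card_prod, Fintype.card_fin, Bd]
    have hd1 : 1 ≤ d ^ ρ := Nat.one_le_pow _ _ hd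
    have hdρ : d ≤ d ^ ρ := Nat.le_self_pow (by omega) d
    have e1 : e * e ≤ d ^ ρ * d ^ ρ := Nat.mul_le_mul he he
    have e2 : w * e ≤ ρ * (d ^ ρ * d ^ ρ) := by
      calc w * e ≤ (ρ * d ^ ρ) * d ^ ρ := by
            refine Nat.mul_le_mul (hw.trans (Nat.mul_le_mul_left _ ?_)) he
            omega
        _ = ρ * (d ^ ρ * d ^ ρ) := by ring
    have e3 : e ≤ d ^ ρ * d ^ ρ := by nlinarith
    have e4 : d ^ (2 * ρ) = d ^ ρ * d ^ ρ := by rw [two_mul, pow_add]
    rw [e4]
    nlinarith
  · rintro ⟨c, hc, hEx⟩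
    have hc' : ∀ j : J, c ∉ HJ j := fun j => by
      have := hc (Fintype.equivFin J j)
      simpa using this
    choose c1 hc1 using fun a => hF (c a)
    obtain ⟨R, hR0, hRw, hR⟩ := (Ex_iff d _).1 hEx
    have hsum : ∀ (c : Fin ρ → F) (c1 : Fin ρ → K),
        (∀ a, algebraMap F (Om K k) (c a) = algebraMap K (Om K k) (c1 a)) →
        ∑ a, c a • η a = ∑ a, algebraMap K (Om K k) (c1 a) * η a := by
      intro c c1 h
      refine Finset.sum_congr rfl fun a _ => ?_
      rw [Algebra.smul_def, h a]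
    set z : Fin e → Om K k := fun i => ∑ a, β i a * algebraMap K (Om K k) (c1 a) with hz
    have hz' : ∀ i, ∑ a, algebraMap K (Om K k) (c1 a) * β i a = z i := fun i =>
      Finset.sum_congr rfl fun a _ => mul_comm _ _
    have hroots : ∀ i, Polynomial.aeval (z i) R = 0 := by
      intro i
      have h2 := hconj c1 (R.map (algebraMap (A K k) (Q K k))) (by
        rw [Polynomial.aeval_map_algebraMap, ← hsum c c1 hc1]
        exact hR) i
      rw [hz', Polynomial.aeval_map_algebraMap] at h2
      exact h2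
    have hzinj : Function.Injective z := by
      intro i j hij
      by_contra hne
      have h2 := hc' (Sum.inl (i, j))
      apply h2
      simp only [HJ, Sum.elim_inl, H1, if_neg hne]
      change ∑ a, c a • (β i a - β j a) = 0
      have h3 : ∀ a, c a • (β i a - β j a) =
          β i a * algebraMap K (Om K k) (c1 a) - β j a * algebraMap K (Om K k) (c1 a) := by
        intro a
        rw [Algebra.smul_def, hc1 a]
        ring
      rw [Finset.sum_congr rfl fun a _ => h3 a, Finset.sum_sub_distrib]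
      exact sub_eq_zero.2 hij
    have hdvdO : (Nc N c1).map (algebraMap (A K k) (Om K k)) ∣
        R.map (algebraMap (A K k) (Om K k)) := by
      rw [map_Nc α N β hN' c1]
      have h2 : (∏ i, (Polynomial.C 1 * Polynomial.X - Polynomial.C (z i))) ∣
          R.map (algebraMap (A K k) (Om K k)) := by
        simp only [Polynomial.C_1, one_mul]
        refine Finset.prod_dvd_of_coprime ?_ fun i _ => ?_
        · intro i _ j _ hij
          exact Polynomial.pairwise_coprime_X_sub_C hzinj hij
        · rw [Polynomial.dvd_iff_isRoot, Polynomial.IsRoot.def, Polynomial.eval_map_algebraMap]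
          exact hroots i
      have hu : IsUnit (Polynomial.C (algebraMap (A K k) (Om K k) α)) := by
        rw [Polynomial.isUnit_C, isUnit_iff_ne_zero]
        intro h
        exact hα (alg_inj (by rw [h, map_zero]))
      exact hu.mul_left_dvd.2 h2
    have hdvdQ : (Nc N c1).map (algebraMap (A K k) (Q K k)) ∣
        R.map (algebraMap (A K k) (Q K k)) := by
      rw [← Polynomial.map_dvd_map' (algebraMap (Q K k) (Om K k)), Polynomial.map_map,
        Polynomial.map_map, ← IsScalarTower.algebraMap_eq (A K k) (Q K k) (Om K k)]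
      exact hdvdO
    have hprimN : ∀ q : A K k, Prime q → ∃ j, ¬ q ∣ (Nc N c1).coeff j := by
      intro q hq
      by_cases hqα : q ∣ α
      · obtain ⟨a, ha⟩ := prime_dvd_lead α N β hρ hN' P hroot q hq (hprim q hq) hqα
        obtain ⟨i, hi⟩ := hpall q hq ⟨a, ha⟩
        obtain ⟨j, hj⟩ := hH2' i c c1 hc1 (fun i' => hc' (Sum.inr (Sum.inl (i, i'))))
        exact ⟨j, fun h => hj (hi.dvd_iff_dvd_left.1 h)⟩
      · exact ⟨e, by rw [coeff_Nc_top α N β hN' c1]; exact hqα⟩
    have hD : Dg N ≤ d :=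
      ((hH3' c c1 hc1 fun i => hc' (Sum.inr (Sum.inr i))).trans
        (wd_le_of_dvd _ R hR0 hprimN hdvdQ)).trans hRw
    intro c2
    choose c3 hc3 using fun a => hF (c2 a)
    rw [Ex_iff]
    refine ⟨Nc N c3, ?_, (wd_Nc_le N c3).trans hD, ?_⟩
    · intro h
      apply hα
      rw [← coeff_Nc_top α N β hN' c3, h, Polynomial.coeff_zero]
    · rw [hsum c2 c3 hc3, ← Polynomial.eval_map_algebraMap, map_Nc α N β hN' c3,
        Polynomial.eval_mul, Polynomial.eval_prod]
      refine mul_eq_zero_of_right _ (Finset.prod_eq_zero (Finset.mem_univ i0) ?_)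
      rw [hi0]
      simp only [Polynomial.eval_sub, Polynomial.eval_mul, Polynomial.eval_C, Polynomial.eval_X,
        one_mul]
      rw [sub_eq_zero]
      exact Finset.sum_congr rfl fun a _ => mul_comm _ _

end

end Pool.Agent.QS
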