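import Pool.Agent.QS.Defs

/-! # A place of the algebraic closure of `K(X_1, .., X_k)` over a given point -/

set_option autoImplicit false

namespace Pool.Agent.QS

open MvPolynomial

/-- The residue field of a valuation subring of an algebraically closed field is
algebraically closed. -/
theorem ps_isAlgClosed {Ω : Type} [Field Ω] [IsAlgClosed Ω] (V : ValuationSubring Ω) :
    IsAlgClosed (IsLocalRing.ResidueField V) := by
  refine IsAlgClosed.of_exists_root _ fun p hp hirr => ?_
  obtain ⟨q, hq, hdeg, hmon⟩ := Polynomial.lifts_and_degree_eq_and_monic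
    (f := IsLocalRing.residue V) (p := p) (by
      rw [Polynomial.mem_lifts]
      exact Polynomial.map_surjective _ IsLocalRing.residue_surjective p) hp
  have hd : (q.map (algebraMap V Ω)).degree ≠ 0 := by
    rw [hmon.degree_map, hdeg]
    exact (Polynomial.degree_pos_of_irreducible hirr).ne'
  obtain ⟨x, hx⟩ := IsAlgClosed.exists_root (q.map (algebraMap V Ω)) hd
  have hint : IsIntegral V x := ⟨q, hmon, by
    rwa [Polynomial.IsRoot, Polynomial.eval_map] at hx⟩
  obtain ⟨y, hy⟩ := IsIntegrallyClosed.isIntegral_iff.mp hint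
  refine ⟨IsLocalRing.residue V y, ?_⟩
  have h1 : q.eval y = 0 := by
    apply IsFractionRing.injective V Ω
    rw [map_zero, ← Polynomial.eval_map_apply, hy]
    exact hx
  rw [← hq, Polynomial.eval_map_apply, h1, map_zero]

/-- the polynomials in a valuation ring which contains them -/
noncomputable def toO {K : Type} [Field K] {k : ℕ} {O : ValuationSubring (Om K k)}
    (hO : ∀ P : A K k, algebraMap (A K k) (Om K k) P ∈ O) : A K k →+* O :=
  (algebraMap (A K k) (Om K k)).codRestrict O.toSubring hO

theorem coe_toO {K : Type} [Field K] {k : ℕ} {O : ValuationSubring (Om K k)}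
    (hO : ∀ P : A K k, algebraMap (A K k) (Om K k) P ∈ O) (P : A K k) :
    ((toO hO P : O) : Om K k) = algebraMap (A K k) (Om K k) P := rfl

/-- lifting of roots -/
theorem root_lift {K κ : Type} [Field K] [Field κ] {k : ℕ} {O : ValuationSubring (Om K k)}
    (hO : ∀ P : A K k, algebraMap (A K k) (Om K k) P ∈ O) (π : O →+* κ)
    (hu : ∀ a : O, π a ≠ 0 → IsUnit a) (P : Polynomial (A K k))
    (hlc : π (toO hO P.leadingCoeff) ≠ 0) (η : κ)
    (hη : (P.map (π.comp (toO hO))).eval η = 0) :
    ∃ β : O, Polynomial.aeval (β : Om K k) P = 0 ∧ π β = η := by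
  classical
  obtain ⟨u, hu'⟩ := hu _ hlc
  have hP0 : P ≠ 0 := by
    rintro rfl
    rw [Polynomial.leadingCoeff_zero, map_zero, map_zero] at hlc
    exact hlc rfl
  set Q : Polynomial O := P.map (toO hO) with hQ
  have hlcQ : Q.leadingCoeff = u := by
    rw [hQ, Polynomial.leadingCoeff_map_of_leadingCoeff_ne_zero _ (by rw [← hu']; exact u.ne_zero),
      hu']
  set Q' : Polynomial O := Polynomial.C ((u⁻¹ : Oˣ) : O) * Q with hQ'
  have hmon : Q'.Monic := by
    rw [Polynomial.Monic, hQ', Polynomial.leadingCoeff_mul, Polynomial.leadingCoeff_C, hlcQ,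
      Units.inv_mul]
  have hmonΩ : (Q'.map (algebraMap O (Om K k))).Monic := hmon.map _
  set S := (Q'.map (algebraMap O (Om K k))).roots with hS
  have hSO : ∀ b ∈ S, b ∈ O := by
    intro b hb
    rw [hS, Polynomial.mem_roots hmonΩ.ne_zero, Polynomial.IsRoot, Polynomial.eval_map] at hb
    obtain ⟨y, hy⟩ := IsIntegrallyClosed.isIntegral_iff.mp (⟨Q', hmon, hb⟩ : IsIntegral O b)
    rw [← hy]
    exact y.2
  obtain ⟨T, hT⟩ : ∃ T : Multiset O, T.map (fun a : O => (a : Om K k)) = S := by
    have := Multiset.canLift (β := O) (α := Om K k) (fun a : O => (a : Om K k)) (fun b => b ∈ O)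
      |>.prf S hSO
    exact this
  have hprod : Q' = (T.map fun a => Polynomial.X - Polynomial.C a).prod := by
    apply Polynomial.map_injective (algebraMap O (Om K k)) (IsFractionRing.injective O (Om K k))
    rw [(IsAlgClosed.splits (Q'.map (algebraMap O (Om K k)))).eq_prod_roots_of_monic hmonΩ,
      ← hS, ← hT, Polynomial.map_multiset_prod, Multiset.map_map, Multiset.map_map]
    congr 1
    refine Multiset.map_congr rfl fun a _ => ?_
    simp only [Function.comp_apply, Polynomial.map_sub, Polynomial.map_X, Polynomial.map_C]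
    rfl
  have h0 : (Q'.map π).eval η = 0 := by
    rw [hQ', Polynomial.map_mul, Polynomial.eval_mul, hQ, Polynomial.map_map, hη, mul_zero]
  rw [hprod, Polynomial.map_multiset_prod, Multiset.map_map, Polynomial.eval_multiset_prod,
    Multiset.map_map, Multiset.prod_eq_zero_iff, Multiset.mem_map] at h0
  obtain ⟨β, hβ, hβ0⟩ := h0
  simp only [Function.comp_apply, Polynomial.map_sub, Polynomial.map_X, Polynomial.map_C,
    Polynomial.eval_sub, Polynomial.eval_X, Polynomial.eval_C] at hβ0
  refine ⟨β, ?_, (sub_eq_zero.1 hβ0).symm⟩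
  have h1 : (β : Om K k) ∈ S := by
    rw [← hT]
    exact Multiset.mem_map_of_mem _ hβ
  rw [hS, Polynomial.mem_roots hmonΩ.ne_zero, Polynomial.IsRoot, hQ', Polynomial.map_mul,
    Polynomial.eval_mul, Polynomial.map_C, Polynomial.eval_C, mul_eq_zero] at h1
  have h2 : algebraMap O (Om K k) ((u⁻¹ : Oˣ) : O) ≠ 0 := by
    rw [Ne, map_eq_zero_iff _ (IsFractionRing.injective O (Om K k))]
    exact Units.ne_zero _
  have h3 := h1.resolve_left h2
  rw [hQ, Polynomial.map_map, Polynomial.eval_map] at h3
  exact h3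

/-- A place over the point `x`, and the algebraic closure of `K(x)` in `L` as a subfield of the
residue field. -/
theorem exists_place {K L : Type} [Field K] [Field L] [Algebra K L] {k : ℕ} (x : Fin k → L) :
    ∃ (κ : Type) (_ : Field κ) (_ : Algebra K κ) (O : ValuationSubring (Om K k))
      (π : O →+* κ) (hO : ∀ P : A K k, algebraMap (A K k) (Om K k) P ∈ O),
      IsAlgClosed κ ∧ Function.Surjective π ∧ (∀ a : O, π a ≠ 0 → IsUnit a) ∧
      (∀ P : A K k, π (toO hO P) = aeval (fun j => π (toO hO (X j))) P) ∧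
      (∀ P : A K k, π (toO hO P) = 0 ↔ aeval x P = 0) ∧
      ∃ (M : Subfield L) (ι : M →+* κ),
        (∀ P : A K k, ∃ h : aeval x P ∈ M, ι ⟨aeval x P, h⟩ = π (toO hO P)) ∧
        ∀ (y : L) (P : Polynomial (A K k)),
          P.map ((aeval x : A K k →ₐ[K] L) : A K k →+* L) ≠ 0 →
          (P.map ((aeval x : A K k →ₐ[K] L) : A K k →+* L)).eval y = 0 → y ∈ M := by
  classical
  let ev : A K k →+* L := ((aeval x : A K k →ₐ[K] L) : A K k →+* L)
  let p : Ideal (A K k) := RingHom.ker ev
  have hp : p.IsPrime := RingHom.ker_isPrime ev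
  have hinj : Function.Injective (algebraMap (A K k) (Om K k)) := by
    rw [IsScalarTower.algebraMap_eq (A K k) (Q K k) (Om K k)]
    exact (algebraMap (Q K k) (Om K k)).injective.comp (IsFractionRing.injective (A K k) (Q K k))
  have hunit : ∀ y : p.primeCompl, IsUnit (algebraMap (A K k) (Om K k) y) := by
    intro y
    rw [isUnit_iff_ne_zero, Ne, map_eq_zero_iff _ hinj]
    intro h0
    apply y.2
    rw [h0]
    exact p.zero_mem
  let f : Localization.AtPrime p →+* Om K k := IsLocalization.lift (M := p.primeCompl) hunit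
  have hf : ∀ P : A K k, f (algebraMap _ _ P) = algebraMap (A K k) (Om K k) P := fun P =>
    IsLocalization.lift_eq hunit P
  obtain ⟨O, hfO, hloc⟩ := IsLocalRing.exists_factor_valuationRing f
  have hO : ∀ P : A K k, algebraMap (A K k) (Om K k) P ∈ O := fun P => by
    rw [← hf]
    exact hfO _
  let κ := IsLocalRing.ResidueField O
  let π : O →+* κ := IsLocalRing.residue O
  let ρ : A K k →+* κ := π.comp (toO hO)
  let algK : Algebra K κ := (ρ.comp (C : K →+* A K k)).toAlgebra
  have hker : ∀ P : A K k, ρ P = 0 ↔ aeval x P = 0 := by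
    intro P
    have h1 : ρ P = 0 ↔ ¬ IsUnit (toO hO P) := by
      change IsLocalRing.residue O (toO hO P) = 0 ↔ _
      rw [IsLocalRing.residue_eq_zero_iff, IsLocalRing.mem_maximalIdeal, mem_nonunits_iff]
    have h2 : IsUnit (toO hO P) ↔ IsUnit (algebraMap (A K k) (Localization.AtPrime p) P) := by
      have h3 : toO hO P = f.codRestrict O.toSubring hfO (algebraMap _ _ P) :=
        Subtype.ext (hf P).symm
      rw [h3]
      exact isUnit_map_iff (f.codRestrict O.toSubring hfO) _
    rw [h1, h2, IsLocalization.AtPrime.isUnit_to_map_iff (Localization.AtPrime p) p P]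
    change ¬ (P ∉ p) ↔ _
    rw [not_not]
    exact RingHom.mem_ker
  have hρ : ∀ P : A K k, π (toO hO P) = aeval (fun j => π (toO hO (X j))) P := by
    intro P
    have h1 : ρ = ((aeval (fun j => π (toO hO (X j))) : A K k →ₐ[K] κ) : A K k →+* κ) := by
      refine MvPolynomial.ringHom_ext (fun c => ?_) fun j => ?_
      · rw [RingHom.coe_coe, aeval_C]
        rfl
      · rw [RingHom.coe_coe, aeval_X]
        rfl
    exact RingHom.congr_fun h1 P
  -- the common subfield
  let B := A K k ⧸ p
  let E₀ := FractionRing B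
  let bL : B →+* L := Ideal.Quotient.lift p ev fun a ha => ha
  have hbL : Function.Injective bL := RingHom.lift_injective_of_ker_le_ideal _ _ le_rfl
  let bκ : B →+* κ := Ideal.Quotient.lift p ρ fun a ha => (hker a).2 ha
  have hbκ : Function.Injective bκ := RingHom.lift_injective_of_ker_le_ideal _ _
    fun a ha => (hker a).1 ha
  let jL : E₀ →+* L := IsFractionRing.lift (K := E₀) hbL
  let jκ : E₀ →+* κ := IsFractionRing.lift (K := E₀) hbκ
  have hjL : ∀ a : A K k, jL (algebraMap B E₀ (Ideal.Quotient.mk p a)) = aeval x a := fun a =>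
    (IsFractionRing.lift_algebraMap hbL _).trans rfl
  have hjκ : ∀ a : A K k, jκ (algebraMap B E₀ (Ideal.Quotient.mk p a)) = ρ a := fun a =>
    (IsFractionRing.lift_algebraMap hbκ _).trans rfl
  let : Algebra E₀ L := jL.toAlgebra
  let : Algebra E₀ κ := jκ.toAlgebra
  have hκ : IsAlgClosed κ := ps_isAlgClosed O
  let M := algebraicClosure E₀ L
  let ι : M →ₐ[E₀] κ := IsAlgClosed.lift
  refine ⟨κ, inferInstance, algK, O, π, hO, hκ, IsLocalRing.residue_surjective, ?_, hρ, hker,
    M.toSubfield, ι.toRingHom, ?_, ?_⟩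
  · intro a ha
    by_contra h
    apply ha
    change IsLocalRing.residue O a = 0
    rwa [IsLocalRing.residue_eq_zero_iff, IsLocalRing.mem_maximalIdeal, mem_nonunits_iff]
  · intro P
    have h1 : aeval x P ∈ M := by
      rw [← hjL]
      exact M.algebraMap_mem _
    refine ⟨h1, ?_⟩
    have h2 : (⟨aeval x P, h1⟩ : M) = algebraMap E₀ M (algebraMap B E₀ (Ideal.Quotient.mk p P)) :=
      Subtype.ext (hjL P).symm
    change ι ⟨aeval x P, h1⟩ = π (toO hO P)
    rw [h2, ι.commutes]
    exact hjκ P
  · intro y P hP hy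
    change y ∈ algebraicClosure E₀ L
    rw [mem_algebraicClosure_iff]
    refine ⟨P.map ((algebraMap B E₀).comp (Ideal.Quotient.mk p)), ?_, ?_⟩
    · intro h0
      apply hP
      have h1 := congrArg (Polynomial.map jL) h0
      rw [Polynomial.map_map, Polynomial.map_zero] at h1
      have h2 : jL.comp ((algebraMap B E₀).comp (Ideal.Quotient.mk p)) = ev := by
        ext a
        · exact hjL _
        · exact hjL _
      rwa [h2] at h1
    · rw [Polynomial.aeval_def, Polynomial.eval₂_map]
      have h2 : (algebraMap E₀ L).comp ((algebraMap B E₀).comp (Ideal.Quotient.mk p)) = ev := by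
        ext a
        · exact hjL _
        · exact hjL _
      rw [h2, ← Polynomial.eval_map]
      exact hy

/-- The place as a homomorphism from a subring to `L`: polynomials are evaluated at `x`, roots of
polynomials whose leading coefficient is not zero at `x` are lifted. -/
theorem exists_placeB {K L : Type} [Field K] [Field L] [Algebra K L] {k : ℕ} (x : Fin k → L) :
    ∃ (B : Subring (Om K k)) (φ : B →+* L),
      (∀ f : A K k, ∃ h : algebraMap (A K k) (Om K k) f ∈ B, φ ⟨_, h⟩ = aeval x f) ∧
      ∀ (P : Polynomial (A K k)) (η : L), aeval x P.leadingCoeff ≠ 0 →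
        Polynomial.eval₂ (aeval x : A K k →ₐ[K] L).toRingHom η P = 0 →
        ∃ (β : Om K k) (h : β ∈ B), Polynomial.aeval β P = 0 ∧ φ ⟨β, h⟩ = η := by
  classical
  obtain ⟨κ, _, _, O, π, hO, -, -, hu, -, hker, M, ι, hι, hM⟩ := exists_place (K := K) x
  have hιi : Function.Injective ι := ι.injective
  let B₀ : Subring O := ι.range.comap π
  let B : Subring (Om K k) := B₀.map O.subtype
  have hOi : Function.Injective O.subtype := Subtype.val_injective
  let e₁ : B₀ ≃+* B := Subring.equivMapOfInjective B₀ O.subtype hOi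
  let e₂ : M ≃+* ι.range := RingEquiv.ofBijective ι.rangeRestrict
    ⟨fun a b h => hιi (congrArg Subtype.val h), ι.rangeRestrict_surjective⟩
  let φ₀ : B₀ →+* ι.range := (π.comp B₀.subtype).codRestrict ι.range fun b => b.2
  let φ : B →+* L := (M.subtype.comp e₂.symm.toRingHom).comp (φ₀.comp e₁.symm.toRingHom)
  have key : ∀ (o : O) (m : M), π o = ι m → ∃ h : (o : Om K k) ∈ B, φ ⟨o, h⟩ = (m : L) := by
    intro o m hom
    have ho : o ∈ B₀ := ⟨m, hom.symm⟩
    refine ⟨⟨o, ho, rfl⟩, ?_⟩
    have h1 : e₁.symm ⟨(o : Om K k), ⟨o, ho, rfl⟩⟩ = (⟨o, ho⟩ : B₀) := by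
      rw [RingEquiv.symm_apply_eq]
      rfl
    have h2 : e₂.symm (φ₀ ⟨o, ho⟩) = m := by
      rw [RingEquiv.symm_apply_eq]
      exact Subtype.ext hom
    change ((e₂.symm (φ₀ (e₁.symm ⟨(o : Om K k), ⟨o, ho, rfl⟩⟩)) : M) : L) = m
    rw [h1, h2]
  refine ⟨B, φ, ?_, ?_⟩
  · intro f
    obtain ⟨h1, h2⟩ := hι f
    exact key (toO hO f) ⟨aeval x f, h1⟩ h2.symm
  · intro P η hlc hη
    have hη' : (P.map ((aeval x : A K k →ₐ[K] L) : A K k →+* L)).eval η = 0 := by
      rw [Polynomial.eval_map]
      exact hη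
    have hP : P.map ((aeval x : A K k →ₐ[K] L) : A K k →+* L) ≠ 0 := by
      intro h0
      apply hlc
      have h1 := congrArg (fun R => Polynomial.coeff R P.natDegree) h0
      rw [Polynomial.coeff_map] at h1
      exact h1
    have hηM := hM η P hP hη'
    have hmap : (P.map (π.comp (toO hO))).eval (ι ⟨η, hηM⟩) = 0 := by
      have h1 : ι (Polynomial.eval₂ ((aeval x : A K k →ₐ[K] L).toRingHom.codRestrict M
          fun f => (hι f).1) ⟨η, hηM⟩ P) = 0 := by
        have h2 : Polynomial.eval₂ ((aeval x : A K k →ₐ[K] L).toRingHom.codRestrict M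
          fun f => (hι f).1) ⟨η, hηM⟩ P = 0 := by
          apply Subtype.ext
          have h3 := Polynomial.hom_eval₂ P ((aeval x : A K k →ₐ[K] L).toRingHom.codRestrict M
            fun f => (hι f).1) M.subtype ⟨η, hηM⟩
          exact h3.trans hη
        rw [h2, map_zero]
      rw [Polynomial.hom_eval₂] at h1
      rw [Polynomial.eval_map]
      have h4 : ι.comp ((aeval x : A K k →ₐ[K] L).toRingHom.codRestrict M
          fun f => (hι f).1) = π.comp (toO hO) := by
        refine RingHom.ext fun f => ?_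
        obtain ⟨h1, h2⟩ := hι f
        exact h2
      rw [← h4]
      exact h1
    have hlc' : π (toO hO P.leadingCoeff) ≠ 0 := fun h => hlc ((hker _).1 h)
    obtain ⟨β, hβ, hπ⟩ := root_lift hO π hu P hlc' _ hmap
    obtain ⟨h1, h2⟩ := key β ⟨η, hηM⟩ hπ
    exact ⟨β, h1, hβ, h2⟩

end Pool.Agent.QS
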