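import Pool.Agent.QS.Defs

/-! # Total degree of polynomials in `Y` over `K[X]` -/

namespace Pool.Agent.QS

open MvPolynomial

variable {K : Type} [Field K] {k : ℕ}

theorem le_wd (P : Polynomial (A K k)) (j : ℕ) (h : P.coeff j ≠ 0) :
    (P.coeff j).totalDegree + j ≤ wd P :=
  Finset.le_sup (f := fun j => (P.coeff j).totalDegree + j) (Polynomial.mem_support_iff.2 h)

theorem wd_le (P : Polynomial (A K k)) (D : ℕ)
    (h : ∀ j, P.coeff j ≠ 0 → (P.coeff j).totalDegree + j ≤ D) : wd P ≤ D :=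
  Finset.sup_le fun j hj => h j (Polynomial.mem_support_iff.1 hj)

private theorem wd_fse (f : MvPolynomial (Fin (k + 1)) K) :
    wd (finSuccEquiv K k f) = f.totalDegree := by
  refine le_antisymm ?_ ?_
  · exact wd_le _ _ fun j hj => totalDegree_coeff_finSuccEquiv_add_le f j hj
  · rw [totalDegree]
    refine Finset.sup_le fun m hm => ?_
    have h1 : coeff (Finsupp.tail m) ((finSuccEquiv K k f).coeff (m 0)) = coeff m f := by
      rw [finSuccEquiv_coeff_coeff, Finsupp.cons_tail]
    have h2 : coeff (Finsupp.tail m) ((finSuccEquiv K k f).coeff (m 0)) ≠ 0 := by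
      rw [h1]
      exact mem_support_iff.1 hm
    have h3 : (finSuccEquiv K k f).coeff (m 0) ≠ 0 := by
      intro h
      rw [h, coeff_zero] at h2
      exact h2 rfl
    refine le_trans ?_ (le_wd _ _ h3)
    have h4 := le_totalDegree (mem_support_iff.2 h2)
    have h5 : (m.sum fun _ e => e) = m 0 + (Finsupp.tail m).sum fun _ e => e := by
      rw [Finsupp.sum_fintype _ _ (fun _ => rfl), Finsupp.sum_fintype _ _ (fun _ => rfl),
        Fin.sum_univ_succ]
      rfl
    rw [h5]
    omega

theorem wd_symm (P : Polynomial (A K k)) : ((finSuccEquiv K k).symm P).totalDegree = wd P := by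
  have h := wd_fse ((finSuccEquiv K k).symm P)
  rw [AlgEquiv.apply_symm_apply] at h
  exact h.symm

theorem wd_mul (P R : Polynomial (A K k)) (hP : P ≠ 0) (hR : R ≠ 0) :
    wd (P * R) = wd P + wd R := by
  rw [← wd_symm, ← wd_symm, ← wd_symm, map_mul]
  refine totalDegree_mul_of_isDomain ?_ ?_
  · rwa [Ne, EmbeddingLike.map_eq_zero_iff]
  · rwa [Ne, EmbeddingLike.map_eq_zero_iff]

private theorem wd_aeval (η : Om K k) (P : MvPolynomial (Fin (k + 1)) K) :
    aeval (Fin.cons η (gx K k) : Fin (k + 1) → Om K k) P =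
      Polynomial.aeval η (finSuccEquiv K k P) := by
  have h : (aeval (Fin.cons η (gx K k) : Fin (k + 1) → Om K k) :
      MvPolynomial (Fin (k + 1)) K →ₐ[K] Om K k) =
      ((Polynomial.aeval η : Polynomial (A K k) →ₐ[A K k] Om K k).restrictScalars K).comp
        (finSuccEquiv K k).toAlgHom := by
    refine MvPolynomial.algHom_ext fun i => ?_
    refine Fin.cases ?_ (fun j => ?_) i
    · rw [aeval_X, Fin.cons_zero]
      simp [finSuccEquiv_X_zero]
    · rw [aeval_X, Fin.cons_succ]
      simp [finSuccEquiv_X_succ, gx]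
  exact DFunLike.congr_fun h P

theorem Ex_iff (d : ℕ) (η : Om K k) :
    Ex K k d η ↔ ∃ P : Polynomial (A K k), P ≠ 0 ∧ wd P ≤ d ∧ Polynomial.aeval η P = 0 := by
  constructor
  · rintro ⟨P, hP, hd, h⟩
    refine ⟨finSuccEquiv K k P, ?_, ?_, ?_⟩
    · rwa [Ne, EmbeddingLike.map_eq_zero_iff]
    · rwa [wd_fse]
    · rwa [← wd_aeval]
  · rintro ⟨P, hP, hd, h⟩
    refine ⟨(finSuccEquiv K k).symm P, ?_, ?_, ?_⟩
    · rwa [Ne, EmbeddingLike.map_eq_zero_iff]
    · rwa [wd_symm]
    · rwa [wd_aeval, AlgEquiv.apply_symm_apply]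

/-- a relation has positive degree in `Y` -/
theorem natDegree_pos (η : Om K k) (P : Polynomial (A K k)) (hP : P ≠ 0)
    (h : Polynomial.aeval η P = 0) : 0 < P.natDegree := by
  rw [Nat.pos_iff_ne_zero]
  intro h0
  rw [Polynomial.eq_C_of_natDegree_eq_zero h0, Polynomial.aeval_C] at h
  have hinj : Function.Injective (algebraMap (A K k) (Om K k)) := by
    rw [IsScalarTower.algebraMap_eq (A K k) (Q K k) (Om K k)]
    exact (algebraMap (Q K k) (Om K k)).injective.comp (IsFractionRing.injective (A K k) (Q K k))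
  have h1 : P.coeff 0 = 0 := hinj (by rw [h, map_zero])
  apply hP
  rw [Polynomial.eq_C_of_natDegree_eq_zero h0, h1, Polynomial.C_0]

end Pool.Agent.QS
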